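import Pool.Agent.Q77.BL.Nta

set_option autoImplicit false

open Set Metric

namespace Q77.BL

variable {E Y1 Y2 : Type*} [NormedAddCommGroup E] [NormedSpace ℝ E]
    [NormedAddCommGroup Y1] [InnerProductSpace ℝ Y1]
    [NormedAddCommGroup Y2] [InnerProductSpace ℝ Y2]

namespace Split

/-- the defining function -/
def de (S : Split E Y1 Y2) (x : E) : ℝ := ‖S.L1 x‖ - ‖S.L2 x‖

/-- the cone -/
def Om (S : Split E Y1 Y2) : Set E := {x | 0 < S.de x}

variable (S : Split E Y1 Y2)

theorem de_lip (x x' : E) : |S.de x - S.de x'| ≤ S.Lam * ‖x - x'‖ := S.lip x x'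

theorem de_cont : Continuous S.de := by
  have h : LipschitzWith (Real.toNNReal S.Lam) S.de := by
    apply LipschitzWith.of_dist_le_mul
    intro x y
    rw [Real.dist_eq, dist_eq_norm, Real.coe_toNNReal _ S.hLam.le]
    exact S.de_lip x y
  exact h.continuous

include S in
/-- a unit vector in the direction of `y` -/
theorem dir1 (y : Y1) : ∃ a : Y1, ‖a‖ = 1 ∧ y = ‖y‖ • a := by
  by_cases hy : y = 0
  · obtain ⟨e, he, -⟩ := S.perp 0
    exact ⟨e, he, by rw [hy]; simp⟩
  · have h0 : ‖y‖ ≠ 0 := norm_ne_zero_iff.2 hy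
    refine ⟨‖y‖⁻¹ • y, ?_, ?_⟩
    · rw [norm_smul, norm_inv, norm_norm, inv_mul_cancel₀ h0]
    · rw [smul_smul, mul_inv_cancel₀ h0, one_smul]

include S in
theorem dir2 (y : Y2) : ∃ a : Y2, ‖a‖ = 1 ∧ y = ‖y‖ • a := by
  by_cases hy : y = 0
  · obtain ⟨e, he⟩ := S.unit2
    exact ⟨e, he, by rw [hy]; simp⟩
  · have h0 : ‖y‖ ≠ 0 := norm_ne_zero_iff.2 hy
    refine ⟨‖y‖⁻¹ • y, ?_, ?_⟩
    · rw [norm_smul, norm_inv, norm_norm, inv_mul_cancel₀ h0]
    · rw [smul_smul, mul_inv_cancel₀ h0, one_smul]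

theorem de_up {x : E} {a : Y1} (ha : ‖a‖ = 1) (hx : S.L1 x = ‖S.L1 x‖ • a) {t : ℝ}
    (ht : 0 ≤ ‖S.L1 x‖ + t) : S.de (x + S.s1 (t • a)) = S.de x + t := by
  unfold de
  rw [S.h11, S.h12]
  have : S.L1 x + t • a = (‖S.L1 x‖ + t) • a := by rw [add_smul, ← hx]
  rw [this, norm_smul, ha, mul_one, Real.norm_of_nonneg ht]
  ring

theorem de_down {x : E} {a : Y2} (ha : ‖a‖ = 1) (hx : S.L2 x = ‖S.L2 x‖ • a) {t : ℝ}
    (ht : 0 ≤ ‖S.L2 x‖ + t) : S.de (x + S.s2 (t • a)) = S.de x - t := by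
  unfold de
  rw [S.h22, S.h21]
  have : S.L2 x + t • a = (‖S.L2 x‖ + t) • a := by rw [add_smul, ← hx]
  rw [this, norm_smul, ha, mul_one, Real.norm_of_nonneg ht]
  ring

theorem s1_norm (e : Y1) : ‖S.s1 e‖ ≤ S.C * ‖e‖ := by
  have := S.lip1 e 0
  rwa [S.z1, sub_zero, sub_zero] at this

theorem s2_norm (e : Y2) : ‖S.s2 e‖ ≤ S.C * ‖e‖ := by
  have := S.lip2 e 0
  rwa [S.z2, sub_zero, sub_zero] at this

theorem isOpen_Om : IsOpen S.Om := isOpen_lt continuous_const S.de_cont

theorem closure_Om : closure S.Om = {x | 0 ≤ S.de x} := by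
  apply Subset.antisymm
  · refine closure_minimal (fun x hx => ?_) (isClosed_le continuous_const S.de_cont)
    exact le_of_lt (show 0 < S.de x from hx)
  · intro x hx
    rw [mem_ofPred_eq] at hx
    rw [Metric.mem_closure_iff]
    intro ε hε
    obtain ⟨a, ha, hxa⟩ := S.dir1 (S.L1 x)
    have hC := S.hC
    set t : ℝ := ε / (2 * S.C) with ht
    have ht0 : 0 < t := by positivity
    refine ⟨x + S.s1 (t • a), ?_, ?_⟩
    · change 0 < S.de _
      rw [S.de_up ha hxa (by positivity)]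
      linarith
    · rw [dist_eq_norm]
      have : x - (x + S.s1 (t • a)) = -S.s1 (t • a) := by abel
      rw [this, norm_neg]
      refine lt_of_le_of_lt (S.s1_norm _) ?_
      rw [norm_smul, ha, mul_one, Real.norm_of_nonneg ht0.le, ht]
      have : S.C * (ε / (2 * S.C)) = ε / 2 := by field_simp
      rw [this]
      linarith

theorem frontier_Om : frontier S.Om = {x | S.de x = 0} := by
  rw [frontier, S.isOpen_Om.interior_eq, S.closure_Om]
  ext x
  simp only [Set.mem_sdiff, mem_ofPred_eq, Om]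
  constructor
  · rintro ⟨h1, h2⟩
    exact le_antisymm (not_lt.1 h2) h1
  · intro h
    exact ⟨h.ge, by rw [h]; exact lt_irrefl 0⟩

theorem frontier_nonempty : (frontier S.Om).Nonempty := by
  rw [S.frontier_Om]
  obtain ⟨a, ha, -⟩ := S.perp 0
  obtain ⟨b, hb⟩ := S.unit2
  -- start with any point, correct the difference
  rcases le_total 0 (S.de 0) with h | h
  · obtain ⟨c, hc, hxc⟩ := S.dir2 (S.L2 0)
    refine ⟨0 + S.s2 (S.de 0 • c), ?_⟩
    rw [mem_ofPred_eq, S.de_down hc hxc (by positivity), sub_self]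
  · obtain ⟨c, hc, hxc⟩ := S.dir1 (S.L1 0)
    refine ⟨0 + S.s1 ((-S.de 0) • c), ?_⟩
    rw [mem_ofPred_eq, S.de_up hc hxc (by have := norm_nonneg (S.L1 0); linarith)]
    ring

theorem abs_de_le_infDist (x : E) : |S.de x| / S.Lam ≤ infDist x (frontier S.Om) := by
  rw [le_infDist S.frontier_nonempty]
  intro q hq
  rw [S.frontier_Om, mem_ofPred_eq] at hq
  have := S.de_lip x q
  rw [hq, sub_zero] at this
  rw [div_le_iff₀ S.hLam, dist_eq_norm]
  linarith

theorem dist_ge {x q : E} (hq : q ∈ frontier S.Om) : S.de x / S.Lam ≤ dist x q := by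
  rw [S.frontier_Om, mem_ofPred_eq] at hq
  have := S.de_lip x q
  rw [hq, sub_zero] at this
  rw [div_le_iff₀ S.hLam, dist_eq_norm]
  linarith [le_abs_self (S.de x)]

theorem exists_near {x : E} (hx : 0 ≤ S.de x) : ∃ q ∈ frontier S.Om, dist x q ≤ S.C * S.de x := by
  obtain ⟨a, ha, hxa⟩ := S.dir1 (S.L1 x)
  have hle : S.de x ≤ ‖S.L1 x‖ := by
    unfold de
    linarith [norm_nonneg (S.L2 x)]
  refine ⟨x + S.s1 ((-S.de x) • a), ?_, ?_⟩
  · rw [S.frontier_Om, mem_ofPred_eq, S.de_up ha hxa (by linarith)]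
    ring
  · rw [dist_eq_norm]
    have : x - (x + S.s1 ((-S.de x) • a)) = -S.s1 ((-S.de x) • a) := by abel
    rw [this, norm_neg]
    refine (S.s1_norm _).trans ?_
    rw [norm_smul, ha, mul_one, norm_neg, Real.norm_of_nonneg hx]

theorem infDist_le {x : E} (hx : 0 ≤ S.de x) : infDist x (frontier S.Om) ≤ S.C * S.de x := by
  obtain ⟨q, hq, h⟩ := S.exists_near hx
  exact (infDist_le_dist_of_mem hq).trans h

/-- the ratio of the balls -/
noncomputable def ka : ℝ := 1 / (2 * S.Lam)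

theorem ka_pos : 0 < S.ka := by
  have := S.hLam
  unfold ka
  positivity

theorem niceBall {x : E} (hx : 0 < S.de x) {M : ℝ} (hM2 : 2 ≤ M) (hM : S.C * S.Lam ≤ M) :
    NiceBall S.Om M x (S.ka * S.de x) := by
  have hL := S.hLam
  have hk : S.ka * S.de x = S.de x / S.Lam / 2 := by
    unfold ka
    field_simp
  have hpos : 0 < S.ka * S.de x := mul_pos S.ka_pos hx
  refine ⟨hpos, ?_, ?_, ?_⟩
  · intro b hb
    rw [mem_ball, dist_eq_norm] at hb
    have := S.de_lip x b
    rw [norm_sub_rev] at hb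
    have h1 : S.Lam * ‖x - b‖ < S.Lam * (S.ka * S.de x) := mul_lt_mul_of_pos_left hb hL
    have h2 : S.Lam * (S.ka * S.de x) = S.de x / 2 := by
      rw [hk]; field_simp
    change 0 < S.de b
    have h3 := (abs_le.1 this).2
    linarith
  · intro b hb q hq
    have h1 := S.dist_ge (x := x) hq
    rw [mem_ball] at hb
    have h2 := dist_triangle x b q
    rw [dist_comm x b] at h2
    have h3 : M⁻¹ * (2 * (S.ka * S.de x)) ≤ S.ka * S.de x := by
      rw [inv_mul_le_iff₀ (by linarith)]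
      nlinarith
    linarith
  · obtain ⟨q, hq, h⟩ := S.exists_near hx.le
    refine ⟨x, mem_ball_self hpos, q, hq, h.trans ?_⟩
    rw [hk]
    have : M * (2 * (S.de x / S.Lam / 2)) = M / S.Lam * S.de x := by field_simp
    rw [this]
    gcongr
    rwa [le_div_iff₀ hL]

/-- a chain of points gives a Harnack chain -/
theorem harnack {n : ℕ} {x y : E} (h : Ch S.de S.ka n x y) {M : ℝ} (hM2 : 2 ≤ M)
    (hM : S.C * S.Lam ≤ M) : HarnackChain S.Om M x y n := by
  have hmain : ∃ c : ℕ → E, c 0 = x ∧ c n = y ∧ (∀ i ≤ n, 0 < S.de (c i)) ∧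
      ∀ i < n, ‖c (i+1) - c i‖ < S.ka * S.de (c i) := by
    induction h with
    | refl x hx => exact ⟨fun _ => x, rfl, rfl, fun _ _ => hx, fun i hi => absurd hi (by omega)⟩
    | @step n x y z hc h1 h2 h3 ih =>
      obtain ⟨c, c0, cn, cpos, cst⟩ := ih
      refine ⟨fun i => if i ≤ n then c i else z, by simp [c0], by simp, ?_, ?_⟩
      · intro i hi
        by_cases hin : i ≤ n
        · simp only [hin, if_true]; exact cpos i hin
        · simp only [hin, if_false]; exact h3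
      · intro i hi
        have hin : i ≤ n := by omega
        simp only [hin, if_true]
        by_cases hin2 : i + 1 ≤ n
        · simp only [hin2, if_true]; exact cst i (by omega)
        · have : i = n := by omega
          subst this
          simp only [hin2, if_false]
          rw [cn]; exact h1
  obtain ⟨c, c0, cn, cpos, cst⟩ := hmain
  refine ⟨c, fun i => S.ka * S.de (c i), fun i hi => S.niceBall (cpos i hi) hM2 hM, ?_, ?_, ?_⟩
  · rw [← c0]; exact mem_ball_self (mul_pos S.ka_pos (cpos 0 (by omega)))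
  · rw [← cn]; exact mem_ball_self (mul_pos S.ka_pos (cpos n le_rfl))
  · intro i hi
    refine ⟨c (i+1), ?_, mem_ball_self (mul_pos S.ka_pos (cpos (i+1) hi))⟩
    rw [mem_ball, dist_eq_norm]
    exact cst i hi

end Split

end Q77.BL
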