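import Pool.Agent.Q77.BL.Cone

set_option autoImplicit false

open Set Metric

namespace Q77.BL

variable {E Y1 Y2 : Type*} [NormedAddCommGroup E] [NormedSpace ℝ E]
    [NormedAddCommGroup Y1] [InnerProductSpace ℝ Y1]
    [NormedAddCommGroup Y2] [InnerProductSpace ℝ Y2]

namespace Split

variable (S : Split E Y1 Y2)

/-- up from `x` to the height `T` -/
theorem chUp {x : E} {a : Y1} (ha : ‖a‖ = 1) (hxa : S.L1 x = ‖S.L1 x‖ • a) (hx : 0 < S.de x)
    {T : ℝ} (hT : 0 ≤ T) {m : ℕ} (hm : T ≤ S.de x * ((1 + S.ka / (2 * S.C)) ^ m - 1)) :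
    Ch S.de S.ka m x (x + S.s1 (T • a)) := by
  have h0 : x + S.s1 ((0:ℝ) • a) = x := by rw [zero_smul, S.z1, add_zero]
  have := Ch.up (δ := S.de) (κ := S.ka) (γ := fun t : ℝ => x + S.s1 (t • a)) (C := S.C) (T := T) (m := m)
    S.hC S.ka_pos hT (by simp only [h0]; exact hx) ?_ ?_ (by simp only [h0]; exact hm)
  · simpa only [h0] using this
  · intro s _ t _
    have e : x + S.s1 (s • a) - (x + S.s1 (t • a)) = S.s1 (s • a) - S.s1 (t • a) := by abel
    rw [e]
    refine (S.lip1 _ _).trans ?_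
    rw [← sub_smul, norm_smul, ha, mul_one, Real.norm_eq_abs]
  · intro t ht
    simp only [h0]
    exact S.de_up ha hxa (by have := ht.1; positivity)

theorem norm_ge_of_sq {V : Type*} [NormedAddCommGroup V] {v : V} {r : ℝ} (h : r ^ 2 ≤ ‖v‖ ^ 2) : r ≤ ‖v‖ :=
  le_of_sq_le_sq_of_nonneg' h (norm_nonneg v)
where
  le_of_sq_le_sq_of_nonneg' {a b : ℝ} (h : a ^ 2 ≤ b ^ 2) (hb : 0 ≤ b) : a ≤ b := by
    by_contra hcon
    push Not at hcon
    nlinarith

theorem conn {x x' : E} {D : ℝ} (hD : 0 < D) (hx : 0 < S.de x) (hx' : 0 < S.de x')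
    (hxx : ‖x - x'‖ ≤ D) {m N : ℕ} (hN3 : 3 ≤ N) (hN : 8 * S.C * S.Lam < N)
    (hm : 2 * S.Lam * D ≤ S.de x * ((1 + S.ka / (2 * S.C)) ^ m - 1))
    (hm' : 2 * S.Lam * D ≤ S.de x' * ((1 + S.ka / (2 * S.C)) ^ m - 1)) :
    Ch S.de S.ka (m + (N + N + N + N) + m) x x' := by
  have hL := S.hLam
  have hC := S.hC
  have hk := S.ka_pos
  have hkL : S.ka * (S.Lam * D) = D / 2 := by unfold ka; field_simp
  set T0 : ℝ := 2 * S.Lam * D with hT0
  have hT0pos : 0 < T0 := by positivity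
  obtain ⟨a, ha, hxa⟩ := S.dir1 (S.L1 x)
  obtain ⟨a', ha', hxa'⟩ := S.dir1 (S.L1 x')
  have hd : 0 < S.Lam * D := by positivity
  have hNpos : 0 < N := by omega
  have hNR : (3:ℝ) ≤ N := by exact_mod_cast hN3
  -- up
  have c1 := S.chUp ha hxa hx hT0pos.le hm
  have c1' := S.chUp ha' hxa' hx' hT0pos.le hm'
  set x1 := x + S.s1 (T0 • a) with hx1
  set x1' := x' + S.s1 (T0 • a') with hx1'
  have hdx1 : S.de x1 = S.de x + T0 := S.de_up ha hxa (by positivity)
  have hdx1' : S.de x1' = S.de x' + T0 := S.de_up ha' hxa' (by positivity)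
  -- the translation
  set x2 := x' + S.s1 (T0 • a) with hx2
  have c2 : Ch S.de S.ka N x1 x2 := by
    have := Ch.path (δ := S.de) (κ := S.ka) (γ := fun t : ℝ => x1 + t • (x' - x)) (ℓ := D) (d := S.Lam * D)
      hNpos hk hd ?_ ?_ ?_
    · have e0 : x1 + (0:ℝ) • (x' - x) = x1 := by rw [zero_smul, add_zero]
      have e1 : x1 + (1:ℝ) • (x' - x) = x2 := by rw [one_smul, hx1, hx2]; abel
      simpa only [e0, e1] using this
    · intro s _ t _
      have e : x1 + s • (x' - x) - (x1 + t • (x' - x)) = (s - t) • (x' - x) := by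
        rw [sub_smul]; abel
      rw [e, norm_smul, Real.norm_eq_abs, mul_comm, norm_sub_rev]
      exact mul_le_mul_of_nonneg_right hxx (abs_nonneg _)
    · intro t ht
      have h1 := S.de_lip x1 (x1 + t • (x' - x))
      have e : x1 - (x1 + t • (x' - x)) = t • (x - x') := by
        rw [smul_sub, smul_sub]; abel
      rw [e, norm_smul, Real.norm_of_nonneg ht.1] at h1
      have h2 : t * ‖x - x'‖ ≤ D := by
        calc t * ‖x - x'‖ ≤ 1 * D := mul_le_mul ht.2 hxx (norm_nonneg _) zero_le_one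
          _ = D := one_mul D
      have h3 : S.Lam * (t * ‖x - x'‖) ≤ S.Lam * D := mul_le_mul_of_nonneg_left h2 hL.le
      have h4 := (abs_le.1 h1).2
      rw [hdx1] at h4
      linarith
    · rw [hkL]; nlinarith
  have hdx2 : S.Lam * D ≤ S.de x2 := by
    have h1 := S.de_lip x1 x2
    have e : x1 - x2 = x - x' := by rw [hx1, hx2]; abel
    rw [e] at h1
    have h3 : S.Lam * ‖x - x'‖ ≤ S.Lam * D := mul_le_mul_of_nonneg_left hxx hL.le
    have h4 := (abs_le.1 h1).2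
    rw [hdx1] at h4
    linarith
  -- the rotation
  set y0 := S.L1 x' + T0 • a with hy0
  set y1 := S.L1 x' + T0 • a' with hy1
  have hL1x2 : S.L1 x2 = y0 := S.h11 _ _
  have hL1x1' : S.L1 x1' = y1 := S.h11 _ _
  have hL2x2 : S.L2 x2 = S.L2 x' := S.h12 _ _
  have hL2x1' : S.L2 x1' = S.L2 x' := S.h12 _ _
  set r0 : ℝ := ‖S.L2 x'‖ + S.Lam * D with hr0
  have hr0pos : 0 < r0 := by positivity
  have hy0r : r0 ≤ ‖y0‖ := by
    have : S.de x2 = ‖y0‖ - ‖S.L2 x'‖ := by unfold de; rw [hL1x2, hL2x2]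
    rw [this] at hdx2; linarith
  have hy1r : r0 ≤ ‖y1‖ := by
    have : S.de x1' = ‖y1‖ - ‖S.L2 x'‖ := by unfold de; rw [hL1x1', hL2x1']
    rw [this] at hdx1'; linarith
  obtain ⟨e0, he0, he0y⟩ := S.perp y0
  obtain ⟨e, he, hey0, hey1⟩ : ∃ e : Y1, ‖e‖ = 1 ∧ inner ℝ y0 e = 0 ∧ 0 ≤ inner ℝ y1 e := by
    rcases le_total 0 (inner ℝ y1 e0) with h | h
    · exact ⟨e0, he0, he0y, h⟩
    · refine ⟨-e0, by rw [norm_neg, he0], by rw [inner_neg_right, he0y, neg_zero], ?_⟩
      rw [inner_neg_right]; linarith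
  set T : ℝ := ‖y1 - y0‖ / 2 with hT
  have hTnn : 0 ≤ T := by positivity
  have hTle : T ≤ T0 := by
    have h1 : y1 - y0 = T0 • (a' - a) := by rw [hy0, hy1, smul_sub]; abel
    have h2 : ‖a' - a‖ ≤ 2 := by
      calc ‖a' - a‖ ≤ ‖a'‖ + ‖a‖ := norm_sub_le _ _
        _ = 2 := by rw [ha, ha']; norm_num
    rw [hT, h1, norm_smul, Real.norm_of_nonneg hT0pos.le]
    nlinarith
  have hd_of : ∀ w : Y1, r0 ≤ ‖S.L1 x' + w‖ → S.Lam * D ≤ S.de (x' + S.s1 w) := by
    intro w hw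
    unfold de
    rw [S.h11, S.h12]
    linarith
  -- x2 → x3
  have c3 : Ch S.de S.ka N x2 (x' + S.s1 (T0 • a + T • e)) := by
    have := Ch.path (δ := S.de) (κ := S.ka) (γ := fun t : ℝ => x' + S.s1 (T0 • a + (t * T) • e))
      (ℓ := S.C * T0) (d := S.Lam * D) hNpos hk hd ?_ ?_ ?_
    · have e0 : x' + S.s1 (T0 • a + ((0:ℝ) * T) • e) = x2 := by rw [zero_mul, zero_smul, add_zero]
      have e1 : x' + S.s1 (T0 • a + ((1:ℝ) * T) • e) = x' + S.s1 (T0 • a + T • e) := by rw [one_mul]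
      simpa only [e0, e1] using this
    · intro s _ t _
      have e4 : x' + S.s1 (T0 • a + (s * T) • e) - (x' + S.s1 (T0 • a + (t * T) • e)) =
        S.s1 (T0 • a + (s * T) • e) - S.s1 (T0 • a + (t * T) • e) := by abel
      rw [e4]
      refine (S.lip1 _ _).trans ?_
      have e5 : T0 • a + (s * T) • e - (T0 • a + (t * T) • e) = ((s - t) * T) • e := by
        rw [sub_mul, sub_smul]; abel
      rw [e5, norm_smul, he, mul_one, Real.norm_eq_abs, abs_mul, abs_of_nonneg hTnn, mul_assoc]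
      refine mul_le_mul_of_nonneg_left ?_ hC.le
      rw [mul_comm]
      exact mul_le_mul_of_nonneg_right hTle (abs_nonneg _)
    · intro t ht
      refine hd_of _ (norm_ge_of_sq ?_)
      have e6 : S.L1 x' + (T0 • a + (t * T) • e) = y0 + (t * T) • e := by rw [hy0]; abel
      rw [e6, norm_add_sq_real, inner_smul_right, hey0, norm_smul, he]
      have : r0 ^ 2 ≤ ‖y0‖ ^ 2 := pow_le_pow_left₀ hr0pos.le hy0r 2
      nlinarith [sq_nonneg (‖t * T‖)]
    · rw [hkL]
      have : S.C * T0 = 2 * S.C * S.Lam * D := by rw [hT0]; ring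
      rw [this]
      nlinarith
  -- x3 → x4
  have c4 : Ch S.de S.ka N (x' + S.s1 (T0 • a + T • e)) (x' + S.s1 (T0 • a' + T • e)) := by
    have := Ch.path (δ := S.de) (κ := S.ka) (γ := fun t : ℝ => x' + S.s1 (T0 • a + t • (y1 - y0) + T • e))
      (ℓ := S.C * (2 * T0)) (d := S.Lam * D) hNpos hk hd ?_ ?_ ?_
    · have e0 : x' + S.s1 (T0 • a + (0:ℝ) • (y1 - y0) + T • e) = x' + S.s1 (T0 • a + T • e) := by
        rw [zero_smul, add_zero]
      have e1 : x' + S.s1 (T0 • a + (1:ℝ) • (y1 - y0) + T • e) = x' + S.s1 (T0 • a' + T • e) := by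
        rw [one_smul]
        have : T0 • a + (y1 - y0) = T0 • a' := by rw [hy0, hy1]; abel
        rw [this]
      simpa only [e0, e1] using this
    · intro s _ t _
      have e4 : x' + S.s1 (T0 • a + s • (y1 - y0) + T • e) - (x' + S.s1 (T0 • a + t • (y1 - y0) + T • e)) =
        S.s1 (T0 • a + s • (y1 - y0) + T • e) - S.s1 (T0 • a + t • (y1 - y0) + T • e) := by abel
      rw [e4]
      refine (S.lip1 _ _).trans ?_
      have e5 : T0 • a + s • (y1 - y0) + T • e - (T0 • a + t • (y1 - y0) + T • e) = (s - t) • (y1 - y0) := by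
        rw [sub_smul]; abel
      rw [e5, norm_smul, Real.norm_eq_abs, mul_assoc]
      refine mul_le_mul_of_nonneg_left ?_ hC.le
      rw [mul_comm]
      refine mul_le_mul_of_nonneg_right ?_ (abs_nonneg _)
      have : ‖y1 - y0‖ = 2 * T := by rw [hT]; ring
      rw [this]; linarith
    · intro t ht
      refine hd_of _ (norm_ge_of_sq ?_)
      have e6 : S.L1 x' + (T0 • a + t • (y1 - y0) + T • e) = (y0 + t • (y1 - y0)) + T • e := by rw [hy0]; abel
      rw [e6, norm_add_sq_real, inner_smul_right, norm_smul, he, inner_add_left, hey0, inner_smul_left,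
        inner_sub_left, hey0, norm_add_sq_real, norm_smul, inner_smul_right]
      have e7 : inner ℝ y0 (y1 - y0) = (‖y1‖ ^ 2 - ‖y0‖ ^ 2 - ‖y1 - y0‖ ^ 2) / 2 := by
        have : ‖y1‖ ^ 2 = ‖y0 + (y1 - y0)‖ ^ 2 := by rw [add_sub_cancel]
        rw [this, norm_add_sq_real]; ring
      rw [e7]
      have e8 : ‖y1 - y0‖ = 2 * T := by rw [hT]; ring
      rw [e8]
      have q0 : r0 ^ 2 ≤ ‖y0‖ ^ 2 := pow_le_pow_left₀ hr0pos.le hy0r 2
      have q1 : r0 ^ 2 ≤ ‖y1‖ ^ 2 := pow_le_pow_left₀ hr0pos.le hy1r 2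
      have ht0 := ht.1
      have ht1 := ht.2
      simp only [conj_trivial, Real.norm_eq_abs, abs_of_nonneg ht0, abs_of_nonneg hTnn]
      have q2 : 0 ≤ T * (t * inner ℝ y1 e) := by positivity
      have q3 : 0 ≤ (1 - t) * (‖y0‖ ^ 2 - r0 ^ 2) := mul_nonneg (by linarith) (by linarith)
      have q4 : 0 ≤ t * (‖y1‖ ^ 2 - r0 ^ 2) := mul_nonneg ht0 (by linarith)
      have q5 : 0 ≤ T ^ 2 * (1 - 2 * t) ^ 2 := by positivity
      nlinarith
    · rw [hkL]
      have : S.C * (2 * T0) = 4 * S.C * S.Lam * D := by rw [hT0]; ring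
      rw [this]
      nlinarith
  -- x1' → x4
  have c5 : Ch S.de S.ka N x1' (x' + S.s1 (T0 • a' + T • e)) := by
    have := Ch.path (δ := S.de) (κ := S.ka) (γ := fun t : ℝ => x' + S.s1 (T0 • a' + (t * T) • e))
      (ℓ := S.C * T0) (d := S.Lam * D) hNpos hk hd ?_ ?_ ?_
    · have e0 : x' + S.s1 (T0 • a' + ((0:ℝ) * T) • e) = x1' := by rw [zero_mul, zero_smul, add_zero]
      have e1 : x' + S.s1 (T0 • a' + ((1:ℝ) * T) • e) = x' + S.s1 (T0 • a' + T • e) := by rw [one_mul]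
      simpa only [e0, e1] using this
    · intro s _ t _
      have e4 : x' + S.s1 (T0 • a' + (s * T) • e) - (x' + S.s1 (T0 • a' + (t * T) • e)) =
        S.s1 (T0 • a' + (s * T) • e) - S.s1 (T0 • a' + (t * T) • e) := by abel
      rw [e4]
      refine (S.lip1 _ _).trans ?_
      have e5 : T0 • a' + (s * T) • e - (T0 • a' + (t * T) • e) = ((s - t) * T) • e := by
        rw [sub_mul, sub_smul]; abel
      rw [e5, norm_smul, he, mul_one, Real.norm_eq_abs, abs_mul, abs_of_nonneg hTnn, mul_assoc]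
      refine mul_le_mul_of_nonneg_left ?_ hC.le
      rw [mul_comm]
      exact mul_le_mul_of_nonneg_right hTle (abs_nonneg _)
    · intro t ht
      refine hd_of _ (norm_ge_of_sq ?_)
      have e6 : S.L1 x' + (T0 • a' + (t * T) • e) = y1 + (t * T) • e := by rw [hy1]; abel
      rw [e6, norm_add_sq_real, inner_smul_right, norm_smul, he]
      have q1 : r0 ^ 2 ≤ ‖y1‖ ^ 2 := pow_le_pow_left₀ hr0pos.le hy1r 2
      have q2 : 0 ≤ t * T * inner ℝ y1 e := mul_nonneg (mul_nonneg ht.1 hTnn) hey1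
      nlinarith [sq_nonneg (‖t * T‖)]
    · rw [hkL]
      have : S.C * T0 = 2 * S.C * S.Lam * D := by rw [hT0]; ring
      rw [this]
      nlinarith
  have := c1.trans ((((c2.trans c3).trans c4).trans c5.symm)) |>.trans c1'.symm
  exact this

end Split

end Q77.BL
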