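import Mathlib

set_option autoImplicit false

open Set Metric

namespace Q77.BL

/-- A ball `B(c, ρ) ⊆ Ω` with `M⁻¹ diam B ≤ dist(B, ∂Ω) ≤ M diam B`, where `diam B = 2 ρ`. -/
def NiceBall {E : Type*} [PseudoMetricSpace E] (Ω : Set E) (M : ℝ) (c : E) (ρ : ℝ) : Prop :=
  0 < ρ ∧ ball c ρ ⊆ Ω ∧
    (∀ b ∈ ball c ρ, ∀ q ∈ frontier Ω, M⁻¹ * (2 * ρ) ≤ dist b q) ∧
    (∃ b ∈ ball c ρ, ∃ q ∈ frontier Ω, dist b q ≤ M * (2 * ρ))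

/-- A chain of `m + 1` balls `B 0, ..., B m` from `x` to `y`, consecutive ones intersecting. -/
def HarnackChain {E : Type*} [PseudoMetricSpace E] (Ω : Set E) (M : ℝ) (x y : E) (m : ℕ) : Prop :=
  ∃ (c : ℕ → E) (ρ : ℕ → ℝ), (∀ i ≤ m, NiceBall Ω M (c i) (ρ i)) ∧ x ∈ ball (c 0) (ρ 0) ∧
    y ∈ ball (c m) (ρ m) ∧ ∀ i < m, (ball (c i) (ρ i) ∩ ball (c (i + 1)) (ρ (i + 1))).Nonempty

/-- Non-tangentially accessible domains (Jerison and Kenig), with the quantifiers of the problem. -/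
def IsNTA {E : Type*} [PseudoMetricSpace E] (Ω : Set E) : Prop :=
  IsOpen Ω ∧ IsConnected Ω ∧ ∃ M : ℝ, 1 < M ∧
    (∀ Q ∈ frontier Ω, ∀ r : ℝ, 0 < r →
      (∃ A ∈ Ω, dist A Q < r ∧ r / M < infDist A (frontier Ω)) ∧
      (∃ A' ∈ (closure Ω)ᶜ, dist A' Q < r ∧ r / M < infDist A' (frontier Ω))) ∧
    (∀ (x y : E) (ε : ℝ) (k : ℕ), x ∈ Ω → y ∈ Ω → 0 < ε → 1 ≤ k → ε < infDist x (frontier Ω) →
      ε < infDist y (frontier Ω) → dist x y < 2 ^ k * ε →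
      ∃ m : ℕ, ((m + 1 : ℕ) : ℝ) ≤ M * k ∧ HarnackChain Ω M x y m)

/-- the data of a quadratic cone `‖L1 x‖ > ‖L2 x‖` -/
structure Split (E Y1 Y2 : Type*) [NormedAddCommGroup E] [NormedSpace ℝ E]
    [NormedAddCommGroup Y1] [InnerProductSpace ℝ Y1]
    [NormedAddCommGroup Y2] [InnerProductSpace ℝ Y2] where
  L1 : E → Y1
  L2 : E → Y2
  s1 : Y1 → E
  s2 : Y2 → E
  Lam : ℝ
  C : ℝ
  hLam : 0 < Lam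
  hC : 0 < C
  h11 : ∀ x e, L1 (x + s1 e) = L1 x + e
  h12 : ∀ x e, L2 (x + s1 e) = L2 x
  h21 : ∀ x e, L1 (x + s2 e) = L1 x
  h22 : ∀ x e, L2 (x + s2 e) = L2 x + e
  lip : ∀ x x', |(‖L1 x‖ - ‖L2 x‖) - (‖L1 x'‖ - ‖L2 x'‖)| ≤ Lam * ‖x - x'‖
  lip1 : ∀ e e', ‖s1 e - s1 e'‖ ≤ C * ‖e - e'‖
  lip2 : ∀ e e', ‖s2 e - s2 e'‖ ≤ C * ‖e - e'‖
  z1 : s1 0 = 0
  z2 : s2 0 = 0
  perp : ∀ y : Y1, ∃ e : Y1, ‖e‖ = 1 ∧ inner ℝ y e = 0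
  unit2 : ∃ e : Y2, ‖e‖ = 1

end Q77.BL
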