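import Pool.Agent.Q77.BL.Conn

set_option autoImplicit false

open Set Metric

namespace Q77.BL

variable {E Y1 Y2 : Type*} [NormedAddCommGroup E] [NormedSpace ℝ E]
    [NormedAddCommGroup Y1] [InnerProductSpace ℝ Y1]
    [NormedAddCommGroup Y2] [InnerProductSpace ℝ Y2]

namespace Split

variable (S : Split E Y1 Y2)

theorem joined {n : ℕ} {x y : E} (h : Ch S.de S.ka n x y) : JoinedIn S.Om x y := by
  induction h with
  | refl x hx => exact JoinedIn.refl hx
  | @step n x y z hc h1 h2 h3 ih =>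
    refine ih.trans (JoinedIn.of_segment_subset ?_)
    have hy := hc.pos_right
    obtain ⟨hpos, hsub, -⟩ := S.niceBall hy (M := max 2 (S.C * S.Lam)) (le_max_left _ _) (le_max_right _ _)
    refine Subset.trans ?_ hsub
    refine (convex_ball y _).segment_subset (mem_ball_self hpos) ?_
    rw [mem_ball, dist_eq_norm]
    exact h1

theorem lam_gt : 1 < 1 + S.ka / (2 * S.C) := by
  have := S.ka_pos
  have := S.hC
  have : 0 < S.ka / (2 * S.C) := by positivity
  linarith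

theorem exists_m0 : ∃ m0 : ℕ, 2 * (1 + 2 * S.Lam * S.C) ≤ (1 + S.ka / (2 * S.C)) ^ m0 := by
  obtain ⟨m, hm⟩ := pow_unbounded_of_one_lt (2 * (1 + 2 * S.Lam * S.C)) S.lam_gt
  exact ⟨m, hm.le⟩

theorem chain_exists {m0 : ℕ} (hm0 : 2 * (1 + 2 * S.Lam * S.C) ≤ (1 + S.ka / (2 * S.C)) ^ m0)
    {N : ℕ} (hN3 : 3 ≤ N) (hN : 8 * S.C * S.Lam < N) {x y : E} {ε : ℝ} {k : ℕ} (hx : 0 < S.de x)
    (hy : 0 < S.de y) (hε : 0 < ε) (hk : 1 ≤ k) (hxe : ε ≤ S.C * S.de x) (hye : ε ≤ S.C * S.de y)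
    (hxy : ‖x - y‖ ≤ 2 ^ k * ε) : Ch S.de S.ka (m0 * k + (N + N + N + N) + m0 * k) x y := by
  have hL := S.hLam
  have hC := S.hC
  have hgrow : ∀ z, 0 < S.de z → ε ≤ S.C * S.de z →
      2 * S.Lam * (2 ^ k * ε) ≤ S.de z * ((1 + S.ka / (2 * S.C)) ^ (m0 * k) - 1) := by
    intro z hz hze
    have h1 : 2 ^ k * (1 + 2 * S.Lam * S.C) ≤ (1 + S.ka / (2 * S.C)) ^ (m0 * k) := by
      rw [pow_mul]
      calc 2 ^ k * (1 + 2 * S.Lam * S.C) ≤ 2 ^ k * (1 + 2 * S.Lam * S.C) ^ k := by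
            refine mul_le_mul_of_nonneg_left ?_ (by positivity)
            exact le_self_pow₀ (by have : 0 < 2 * S.Lam * S.C := by positivity
                                   linarith) (by omega)
        _ = (2 * (1 + 2 * S.Lam * S.C)) ^ k := by rw [mul_pow]
        _ ≤ _ := pow_le_pow_left₀ (by positivity) hm0 k
    have h2 : (1:ℝ) ≤ 2 ^ k := one_le_pow₀ (by norm_num)
    have h3 : 2 * S.Lam * S.C * 2 ^ k ≤ (1 + S.ka / (2 * S.C)) ^ (m0 * k) - 1 := by nlinarith
    calc 2 * S.Lam * (2 ^ k * ε) ≤ 2 * S.Lam * (2 ^ k * (S.C * S.de z)) := by gcongr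
      _ = S.de z * (2 * S.Lam * S.C * 2 ^ k) := by ring
      _ ≤ _ := mul_le_mul_of_nonneg_left h3 hz.le
  exact S.conn (by positivity) hx hy hxy hN3 hN (hgrow x hx hxe) (hgrow y hy hye)

theorem isNTA : IsNTA S.Om := by
  have hL := S.hLam
  have hC := S.hC
  obtain ⟨m0, hm0⟩ := S.exists_m0
  obtain ⟨N0, hN0⟩ := exists_nat_gt (8 * S.C * S.Lam)
  set N : ℕ := N0 + 3 with hNdef
  have hN3 : 3 ≤ N := by omega
  have hN : 8 * S.C * S.Lam < N := by
    have : (N0 : ℝ) ≤ N := by exact_mod_cast (show N0 ≤ N by omega)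
    linarith
  have hne : S.Om.Nonempty := by
    obtain ⟨q, hq⟩ := S.frontier_nonempty
    rw [S.frontier_Om, mem_ofPred_eq] at hq
    obtain ⟨a, ha, hqa⟩ := S.dir1 (S.L1 q)
    refine ⟨q + S.s1 ((1:ℝ) • a), ?_⟩
    change 0 < S.de _
    rw [S.de_up ha hqa (by positivity), hq]
    norm_num
  have hconn : IsConnected S.Om := by
    apply IsPathConnected.isConnected
    obtain ⟨x, hx⟩ := hne
    refine ⟨x, hx, fun {y} hy => ?_⟩
    have hx' : 0 < S.de x := hx
    have hy' : 0 < S.de y := hy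
    set ε : ℝ := min (S.C * S.de x) (S.C * S.de y) with hε
    have hεpos : 0 < ε := lt_min (by positivity) (by positivity)
    obtain ⟨k, hk⟩ := pow_unbounded_of_one_lt (‖x - y‖ / ε) (one_lt_two)
    have hk' : ‖x - y‖ ≤ 2 ^ (k+1) * ε := by
      rw [div_lt_iff₀ hεpos] at hk
      have : (2:ℝ) ^ k * ε ≤ 2 ^ (k+1) * ε := by
        rw [pow_succ]
        have : 0 < (2:ℝ) ^ k * ε := by positivity
        nlinarith
      linarith
    exact S.joined (S.chain_exists hm0 hN3 hN hx' hy' hεpos (Nat.le_add_left 1 k) (min_le_left _ _)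
      (min_le_right _ _) hk')
  set M : ℝ := 2 * S.C * S.Lam + S.C * S.Lam + 2 + (2 * m0 + 4 * N + 1) with hM
  have hCL : 0 < S.C * S.Lam := by positivity
  have hm0n : (0:ℝ) ≤ m0 := Nat.cast_nonneg _
  have hNn : (0:ℝ) ≤ N := Nat.cast_nonneg _
  have hM1 : 1 < M := by rw [hM]; nlinarith
  have hM2 : 2 ≤ M := by rw [hM]; nlinarith
  have hM3 : S.C * S.Lam ≤ M := by rw [hM]; nlinarith
  have hM4 : 2 * S.C * S.Lam < M := by rw [hM]; nlinarith
  have hM5 : 2 * (m0:ℝ) + 4 * N + 1 ≤ M := by rw [hM]; nlinarith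
  refine ⟨S.isOpen_Om, hconn, M, hM1, ?_, ?_⟩
  · intro Q hQ r hr
    rw [S.frontier_Om, mem_ofPred_eq] at hQ
    have ht0 : 0 < r / (2 * S.C) := by positivity
    have hclose : ∀ z : E, ‖z‖ ≤ S.C * (r / (2 * S.C)) → dist (Q + z) Q < r := by
      intro z hz
      rw [dist_eq_norm, add_sub_cancel_left]
      have : S.C * (r / (2 * S.C)) = r / 2 := by field_simp
      rw [this] at hz
      linarith
    have hfar : ∀ z : E, |S.de z| = r / (2 * S.C) → r / M < infDist z (frontier S.Om) := by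
      intro z hz
      refine lt_of_lt_of_le ?_ (S.abs_de_le_infDist z)
      rw [hz, div_div]
      exact div_lt_div_of_pos_left hr (by positivity) hM4
    constructor
    · obtain ⟨a, ha, hqa⟩ := S.dir1 (S.L1 Q)
      have hde : S.de (Q + S.s1 ((r / (2 * S.C)) • a)) = r / (2 * S.C) := by
        rw [S.de_up ha hqa (by positivity), hQ, zero_add]
      refine ⟨Q + S.s1 ((r / (2 * S.C)) • a), ?_, ?_, ?_⟩
      · change 0 < S.de _
        rw [hde]; exact ht0
      · apply hclose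
        refine (S.s1_norm _).trans ?_
        rw [norm_smul, ha, mul_one, Real.norm_of_nonneg ht0.le]
      · apply hfar
        rw [hde, abs_of_pos ht0]
    · obtain ⟨a, ha, hqa⟩ := S.dir2 (S.L2 Q)
      have hde : S.de (Q + S.s2 ((r / (2 * S.C)) • a)) = -(r / (2 * S.C)) := by
        rw [S.de_down ha hqa (by positivity), hQ, zero_sub]
      refine ⟨Q + S.s2 ((r / (2 * S.C)) • a), ?_, ?_, ?_⟩
      · rw [S.closure_Om, mem_compl_iff, mem_ofPred_eq, hde, not_le]
        linarith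
      · apply hclose
        refine (S.s2_norm _).trans ?_
        rw [norm_smul, ha, mul_one, Real.norm_of_nonneg ht0.le]
      · apply hfar
        rw [hde, abs_neg, abs_of_pos ht0]
  · intro x y ε k hx hy hε hk hxe hye hxy
    have hx' : 0 < S.de x := hx
    have hy' : 0 < S.de y := hy
    have h1 : ε ≤ S.C * S.de x := hxe.le.trans (S.infDist_le hx'.le)
    have h2 : ε ≤ S.C * S.de y := hye.le.trans (S.infDist_le hy'.le)
    rw [dist_eq_norm] at hxy
    refine ⟨_, ?_, S.harnack (S.chain_exists hm0 hN3 hN hx' hy' hε hk h1 h2 hxy.le) hM2 hM3⟩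
    have hkR : (1:ℝ) ≤ k := by exact_mod_cast hk
    push_cast
    have h3 : (2 * (m0:ℝ) + 4 * N + 1) * k ≤ M * k := by gcongr
    nlinarith

end Split

end Q77.BL
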