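import Pool.Agent.Q77.BL.Topo

set_option autoImplicit false

open Set Metric Complex

namespace Q77.BL

/-- the bad vertices of the cones -/
def bad (ν : ℂ) (f : E5 → E5) (γ : ℝ → E5) : Set F4 :=
  {z | ∃ w t σ : ℝ, 0 < σ ∧ z = σ⁻¹ • (pr ν (f (ax w)) - (1 - σ) • pr ν (f (γ t)))}

theorem dimH_bad {ν : ℂ} {f : E5 → E5} {γ : ℝ → E5} {L : ℝ} (hL : 0 ≤ L) (hγ : ContDiff ℝ 1 γ)
    (hγm : ∀ t, γ t ∈ Sg0) (hf : ∀ x ∈ Sg0, ∀ y ∈ Sg0, dist (f x) (f y) ≤ L * dist x y) :
    dimH (bad ν f γ) ≤ 3 := by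
  set g1 : ℝ × ℝ × ℝ → E5 × E5 × ℝ := fun p => (ax p.1, γ p.2.1, p.2.2) with hg1
  set T0 : Set (ℝ × ℝ × ℝ) := {p | 0 < p.2.2} with hT0
  have h1 : dimH (g1 '' T0) ≤ 3 := by
    have hc : ContDiff ℝ 1 g1 := by
      rw [hg1]
      exact (contDiff_ax.comp contDiff_fst).prodMk ((hγ.comp (contDiff_fst.comp contDiff_snd)).prodMk
        (contDiff_snd.comp contDiff_snd))
    refine (hc.contDiffOn.dimH_image_le convex_univ (subset_univ T0)).trans ?_
    refine (dimH_mono (subset_univ T0)).trans ?_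
    rw [Real.dimH_univ_eq_finrank]
    simp
  set g2 : E5 × E5 × ℝ → E5 × E5 × ℝ := fun p => (f p.1, f p.2.1, p.2.2) with hg2
  have h2 : dimH (g2 '' (g1 '' T0)) ≤ 3 := by
    refine le_trans ?_ h1
    have hlip : LipschitzOnWith (Real.toNNReal (max L 1)) g2 (g1 '' T0) := by
      apply LipschitzOnWith.of_dist_le_mul
      rintro _ ⟨p, -, rfl⟩ _ ⟨q, -, rfl⟩
      have hm1 : L ≤ max L 1 := le_max_left _ _
      have hm2 : (1:ℝ) ≤ max L 1 := le_max_right _ _
      rw [Real.coe_toNNReal _ (le_trans hL hm1)]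
      set D := dist (g1 p) (g1 q) with hD
      have hD0 : 0 ≤ D := dist_nonneg
      have a1 : dist (ax p.1) (ax q.1) ≤ D := by rw [hD, Prod.dist_eq]; exact le_max_left _ _
      have a2 : dist (γ p.2.1) (γ q.2.1) ≤ D := by
        rw [hD, Prod.dist_eq]
        refine le_trans ?_ (le_max_right _ _)
        rw [Prod.dist_eq]
        exact le_max_left _ _
      have a3 : dist p.2.2 q.2.2 ≤ D := by
        rw [hD, Prod.dist_eq]
        refine le_trans ?_ (le_max_right _ _)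
        rw [Prod.dist_eq]
        exact le_max_right _ _
      rw [Prod.dist_eq, Prod.dist_eq]
      refine max_le ?_ (max_le ?_ ?_)
      · refine (hf _ (ax_mem _) _ (ax_mem _)).trans ?_
        exact mul_le_mul hm1 a1 dist_nonneg (by linarith)
      · refine (hf _ (hγm _) _ (hγm _)).trans ?_
        exact mul_le_mul hm1 a2 dist_nonneg (by linarith)
      · calc dist p.2.2 q.2.2 ≤ 1 * D := by rw [one_mul]; exact a3
          _ ≤ max L 1 * D := mul_le_mul_of_nonneg_right hm2 hD0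
    exact hlip.dimH_image_le
  set P : E5 × E5 × ℝ → F4 := fun p => p.2.2⁻¹ • (pr ν p.1 - (1 - p.2.2) • pr ν p.2.1) with hP
  have hPc : ContDiffOn ℝ 1 P {p | 0 < p.2.2} := by
    have cσ : ContDiffOn ℝ 1 (fun p : E5 × E5 × ℝ => p.2.2) {p | 0 < p.2.2} :=
      (contDiff_snd.comp contDiff_snd).contDiffOn
    have cA : ContDiffOn ℝ 1 (fun p : E5 × E5 × ℝ => p.2.2⁻¹) {p | 0 < p.2.2} :=
      cσ.inv (fun p hp => ne_of_gt hp)
    have cB1 : ContDiffOn ℝ 1 (fun p : E5 × E5 × ℝ => pr ν p.1) {p | 0 < p.2.2} :=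
      ((pr_contDiff ν).comp contDiff_fst).contDiffOn
    have cB2 : ContDiffOn ℝ 1 (fun p : E5 × E5 × ℝ => pr ν p.2.1) {p | 0 < p.2.2} :=
      ((pr_contDiff ν).comp (contDiff_fst.comp contDiff_snd)).contDiffOn
    have cC : ContDiffOn ℝ 1 (fun p : E5 × E5 × ℝ => 1 - p.2.2) {p | 0 < p.2.2} :=
      contDiffOn_const.sub cσ
    exact cA.smul (cB1.sub (cC.smul cB2))
  have hconv : Convex ℝ {p : E5 × E5 × ℝ | 0 < p.2.2} := by
    have : {p : E5 × E5 × ℝ | 0 < p.2.2} =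
        ((LinearMap.snd ℝ E5 (E5 × ℝ)).comp LinearMap.id |> fun l => (LinearMap.snd ℝ E5 ℝ).comp l) ⁻¹' (Ioi 0) := by
      ext p; simp
    rw [this]
    exact (convex_Ioi (0:ℝ)).linear_preimage _
  have hsub : g2 '' (g1 '' T0) ⊆ {p | 0 < p.2.2} := by
    rintro _ ⟨_, ⟨p, hp, rfl⟩, rfl⟩
    exact hp
  have h3 : bad ν f γ ⊆ P '' (g2 '' (g1 '' T0)) := by
    rintro z ⟨w, t, σ, hσ, rfl⟩
    exact ⟨_, ⟨_, ⟨(w, t, σ), hσ, rfl⟩, rfl⟩, rfl⟩
  exact (dimH_mono h3).trans ((hPc.dimH_image_le hconv hsub).trans h2)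

theorem noBi : ¬ ∃ (f : E5 → E5) (L : ℝ), 1 ≤ L ∧ BijOn f Sg0 Sg1 ∧
    ∀ x ∈ Sg0, ∀ y ∈ Sg0, L⁻¹ * dist x y ≤ dist (f x) (f y) ∧ dist (f x) (f y) ≤ L * dist x y := by
  rintro ⟨f, L, hL, hbij, hlip⟩
  have hL0 : 0 < L := by linarith
  have hLe : ∀ x ∈ Sg0, ∀ y ∈ Sg0, dist (f x) (f y) ≤ L * dist x y := fun x hx y hy => (hlip x hx y hy).2
  have hfc : ContinuousOn f Sg0 := by
    have : LipschitzOnWith (Real.toNNReal L) f Sg0 := by
      apply LipschitzOnWith.of_dist_le_mul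
      intro x hx y hy
      rw [Real.coe_toNNReal _ hL0.le]
      exact hLe x hx y hy
    exact this.continuousOn
  -- the inverse
  set g := Function.invFunOn f Sg0 with hg
  have hgm : ∀ y ∈ Sg1, g y ∈ Sg0 := fun y hy => Function.invFunOn_mem (hbij.surjOn hy)
  have hfg : ∀ y ∈ Sg1, f (g y) = y := fun y hy => Function.invFunOn_eq (hbij.surjOn hy)
  have hgf : ∀ x ∈ Sg0, g (f x) = x := fun x hx =>
    hbij.injOn (hgm _ (hbij.mapsTo hx)) hx (hfg _ (hbij.mapsTo hx))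
  have hgc : ContinuousOn g Sg1 := by
    have : LipschitzOnWith (Real.toNNReal L) g Sg1 := by
      apply LipschitzOnWith.of_dist_le_mul
      intro x hx y hy
      rw [Real.coe_toNNReal _ hL0.le]
      have := (hlip _ (hgm x hx) _ (hgm y hy)).1
      rw [hfg x hx, hfg y hy, inv_mul_le_iff₀ hL0] at this
      exact this
    exact this.continuousOn
  -- a point of the axis not mapped to the vertex
  obtain ⟨w0, hw0⟩ : ∃ w0 : ℝ, f (ax w0) ≠ 0 := by
    by_contra hcon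
    push Not at hcon
    have h1 := hcon 0
    have h2 := hcon 1
    have h3 : ax 0 = ax 1 := hbij.injOn (ax_mem 0) (ax_mem 1) (by rw [h1, h2])
    have h4 : (ax 0) 4 = (ax 1) 4 := by rw [h3]
    simp [ax] at h4
  set b0 := f (ax w0) with hb0
  have hb0m : b0 ∈ Sg1 := hbij.mapsTo (ax_mem w0)
  have hb0m' : b0 0 ^ 2 + b0 1 ^ 2 = (b0 2 ^ 2 + b0 3 ^ 2) / 2 + b0 4 ^ 2 := hb0m
  have huc : uc b0 ≠ 0 := by
    intro h
    apply hw0
    have h1 := normSq_uc b0
    rw [h, map_zero] at h1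
    have e0 : b0 0 = 0 := by nlinarith [sq_nonneg (b0 0), sq_nonneg (b0 1)]
    have e1 : b0 1 = 0 := by nlinarith [sq_nonneg (b0 0), sq_nonneg (b0 1)]
    have e2 : b0 2 = 0 := by nlinarith [sq_nonneg (b0 2), sq_nonneg (b0 3), sq_nonneg (b0 4)]
    have e3 : b0 3 = 0 := by nlinarith [sq_nonneg (b0 2), sq_nonneg (b0 3), sq_nonneg (b0 4)]
    have e4 : b0 4 = 0 := by nlinarith [sq_nonneg (b0 2), sq_nonneg (b0 3), sq_nonneg (b0 4)]
    ext i
    fin_cases i
    · simpa using e0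
    · simpa using e1
    · simpa using e2
    · simpa using e3
    · simpa using e4
  set ν : ℂ := uc b0 / (‖uc b0‖ : ℂ) with hν
  have hnpos : 0 < ‖uc b0‖ := norm_pos_iff.2 huc
  have hνn : ‖ν‖ = 1 := by
    rw [hν, norm_div, Complex.norm_real, norm_norm, div_self hnpos.ne']
  have hprod : uc b0 * (starRingEnd ℂ) ν = (‖uc b0‖ : ℂ) := by
    rw [hν, map_div₀, Complex.conj_ofReal, mul_div_assoc', Complex.mul_conj, Complex.normSq_eq_norm_sq]
    have : (‖uc b0‖ : ℂ) ≠ 0 := by exact_mod_cast hnpos.ne'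
    push_cast
    field_simp
  have hal0 : 0 < al ν b0 := by
    unfold al
    rw [hprod, Complex.ofReal_re]
    exact hnpos
  have hrad0 : 0 < rad (pr ν b0) := by
    unfold rad pr
    rw [hprod, Complex.ofReal_im]
    have h1 := normSq_uc b0
    have h2 : 0 < Complex.normSq (uc b0) := Complex.normSq_pos.2 huc
    simp only
    nlinarith
  -- neighbourhoods
  obtain ⟨r, hr, hball⟩ := Metric.isOpen_iff.1 (isOpen_lt continuous_const rad_cont) (pr ν b0) hrad0
  obtain ⟨r1, hr1, hball1⟩ := Metric.isOpen_iff.1 (isOpen_lt continuous_const (al_cont ν)) b0 hal0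
  obtain ⟨r2, hr2, hball2⟩ := Metric.isOpen_iff.1
    (Metric.isOpen_ball.preimage (pr_contDiff ν).continuous : IsOpen ((pr ν) ⁻¹' (ball (pr ν b0) r))) b0
    (mem_ball_self hr)
  -- the loop
  set s : ℝ := min r1 r2 / (4 * L) with hs
  have hmin : 0 < min r1 r2 := lt_min hr1 hr2
  have hspos : 0 < s := by positivity
  set γ := lp s w0 with hγ
  have hγm : ∀ t, γ t ∈ Sg0 := lp_mem s w0
  have hγc : Continuous γ := (contDiff_lp s w0).continuous
  have hfγ : ∀ t, dist (f (γ t)) b0 < min r1 r2 := by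
    intro t
    have h1 := hLe _ (hγm t) _ (ax_mem w0)
    have h2 := dist_lp_ax hspos.le w0 t
    have h3 : L * (2 * s) = min r1 r2 / 2 := by rw [hs]; field_simp; ring
    calc dist (f (γ t)) b0 ≤ L * dist (γ t) (ax w0) := h1
      _ ≤ L * (2 * s) := mul_le_mul_of_nonneg_left h2 hL0.le
      _ = min r1 r2 / 2 := h3
      _ < min r1 r2 := by linarith
  have hfγm : ∀ t, f (γ t) ∈ Sg1 := fun t => hbij.mapsTo (hγm t)
  have hfγal : ∀ t, 0 < al ν (f (γ t)) := fun t => hball1 (mem_ball.2 ((hfγ t).trans_le (min_le_left _ _)))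
  have hfγpr : ∀ t, pr ν (f (γ t)) ∈ ball (pr ν b0) r := fun t =>
    hball2 (mem_ball.2 ((hfγ t).trans_le (min_le_right _ _)))
  -- the generic vertex
  have hdim : dimH (bad ν f γ) < (Module.finrank ℝ F4 : ℕ) := by
    refine lt_of_le_of_lt (dimH_bad hL0.le (contDiff_lp s w0) hγm hLe) ?_
    simp
    norm_num
  obtain ⟨z, hzball, hzbad⟩ := (dense_compl_of_dimH_lt_finrank hdim).inter_open_nonempty
    (ball (pr ν b0) r) isOpen_ball ⟨pr ν b0, mem_ball_self hr⟩
  -- the homotopy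
  set H : ℝ × ℝ → F4 := fun p => (1 - p.1) • pr ν (f (γ p.2)) + p.1 • z with hH
  have hHball : ∀ p : ℝ × ℝ, p.1 ∈ Icc (0:ℝ) 1 → H p ∈ ball (pr ν b0) r := by
    intro p hp
    exact (convex_ball _ _) (hfγpr p.2) hzball (by linarith [hp.2]) hp.1 (by ring)
  have hHrad : ∀ p : ℝ × ℝ, p.1 ∈ Icc (0:ℝ) 1 → 0 ≤ rad (H p) := fun p hp =>
    le_of_lt (hball (hHball p hp))
  have hfγc : Continuous fun t => f (γ t) := hfc.comp_continuous hγc hγm
  have hHc : Continuous H := by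
    rw [hH]
    have := (pr_contDiff ν).continuous.comp (hfγc.comp continuous_snd : Continuous fun p : ℝ × ℝ => f (γ p.2))
    exact ((continuous_const.sub continuous_fst).smul this).add (continuous_fst.smul continuous_const)
  set K : ℝ × ℝ → ℂ := fun p => uc (g (Ph ν (H p))) with hK
  refine wind (K := K) (s := s) hspos ?_ ?_ ?_ ?_ ?_
  · refine uc_cont.comp_continuousOn (hgc.comp (((Ph_cont ν).comp hHc).continuousOn) ?_)
    intro p hp
    exact Ph_mem hνn (hHrad p hp.1)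
  · intro p hp hK0
    have hm1 : Ph ν (H p) ∈ Sg1 := Ph_mem hνn (hHrad p hp.1)
    have hm0 := hgm _ hm1
    have hx : (g (Ph ν (H p))) 0 ^ 2 + (g (Ph ν (H p))) 1 ^ 2 = (g (Ph ν (H p))) 2 ^ 2 + (g (Ph ν (H p))) 3 ^ 2 := hm0
    have hgax : g (Ph ν (H p)) = ax ((g (Ph ν (H p))) 4) := by
      set x := g (Ph ν (H p)) with hxdef
      have h1 := normSq_uc x
      have h2 : uc x = 0 := hK0
      rw [h2, map_zero] at h1
      have e0 : x 0 = 0 := by nlinarith [sq_nonneg (x 0), sq_nonneg (x 1)]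
      have e1 : x 1 = 0 := by nlinarith [sq_nonneg (x 0), sq_nonneg (x 1)]
      have e2 : x 2 = 0 := by nlinarith [sq_nonneg (x 2), sq_nonneg (x 3)]
      have e3 : x 3 = 0 := by nlinarith [sq_nonneg (x 2), sq_nonneg (x 3)]
      ext i
      fin_cases i <;> simp [ax, e0, e1, e2, e3]
    set w := (g (Ph ν (H p))) 4 with hw
    have hfax : f (ax w) = Ph ν (H p) := by rw [← hgax, hfg _ hm1]
    have hpr : pr ν (f (ax w)) = H p := by rw [hfax, pr_Ph hνn]
    rcases eq_or_lt_of_le hp.1.1 with h0 | h0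
    · -- `σ = 0`
      have hH0 : H p = pr ν (f (γ p.2)) := by
        simp only [hH]
        rw [← h0]
        simp
      have h1 : Ph ν (H p) = f (γ p.2) := by
        rw [hH0]
        exact Ph_pr hνn (hfγm _) (hfγal _).le
      rw [h1] at hfax
      have h2 : ax w = γ p.2 := hbij.injOn (ax_mem w) (hγm _) hfax
      have h3 : (ax w) 2 = (γ p.2) 2 := by rw [h2]
      simp [ax, hγ, lp] at h3
      linarith
    · apply hzbad
      refine ⟨w, p.2, p.1, h0, ?_⟩
      rw [hpr]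
      simp only [hH]
      rw [add_sub_cancel_left, smul_smul, inv_mul_cancel₀ h0.ne', one_smul]
  · intro t _
    simp only [hK, hH]
    rw [sub_zero, one_smul, zero_smul, add_zero, Ph_pr hνn (hfγm _) (hfγal _).le, hgf _ (hγm t), hγ, uc_lp]
  · intro t _
    simp only [hK, hH]
    rw [sub_self, zero_smul, zero_smul]
  · intro σ _
    have : γ 0 = γ (2 * Real.pi) := by
      rw [hγ]
      unfold lp
      simp
    simp only [hK, hH]
    rw [this]

end Q77.BL
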