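import Pool.Agent.Q77.BL.Def

set_option autoImplicit false

open Set Metric

namespace Q77.BL

section chain

variable {E : Type*} [NormedAddCommGroup E]

/-- chains of points, the steps of which are small compared with `δ` -/
inductive Ch (δ : E → ℝ) (κ : ℝ) : ℕ → E → E → Prop
  | refl (x : E) (hx : 0 < δ x) : Ch δ κ 0 x x
  | step {n : ℕ} {x y : E} (z : E) : Ch δ κ n x y → ‖z - y‖ < κ * δ y → ‖z - y‖ < κ * δ z → 0 < δ z →
      Ch δ κ (n + 1) x z

variable {δ : E → ℝ} {κ : ℝ}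

theorem Ch.pos_right {n : ℕ} {x y : E} (h : Ch δ κ n x y) : 0 < δ y := by
  cases h with
  | refl _ hx => exact hx
  | step _ _ _ _ hz => exact hz

theorem Ch.pos_left {n : ℕ} {x y : E} (h : Ch δ κ n x y) : 0 < δ x := by
  induction h with
  | refl _ hx => exact hx
  | step _ _ _ _ _ ih => exact ih

theorem Ch.trans {n m : ℕ} {x y z : E} (h : Ch δ κ n x y) (h' : Ch δ κ m y z) : Ch δ κ (n + m) x z := by
  induction h' with
  | refl _ _ => exact h
  | step w _ h1 h2 h3 ih => exact Ch.step w (ih h) h1 h2 h3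

theorem Ch.single {x y : E} (h1 : ‖y - x‖ < κ * δ x) (h2 : ‖y - x‖ < κ * δ y) (hx : 0 < δ x)
    (hy : 0 < δ y) : Ch δ κ 1 x y := Ch.step y (Ch.refl x hx) h1 h2 hy

theorem Ch.symm {n : ℕ} {x y : E} (h : Ch δ κ n x y) : Ch δ κ n y x := by
  induction h with
  | refl _ hx => exact Ch.refl _ hx
  | @step n x y z hc h1 h2 h3 ih =>
    have : Ch δ κ 1 z y := Ch.single (by rwa [norm_sub_rev]) (by rwa [norm_sub_rev]) h3 hc.pos_right
    have := this.trans ih
    rwa [add_comm] at this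

theorem Ch.pad {n : ℕ} {x y : E} (hκ : 0 < κ) (h : Ch δ κ n x y) (m : ℕ) (hm : n ≤ m) : Ch δ κ m x y := by
  induction m, hm using Nat.le_induction with
  | base => exact h
  | succ m _ ih =>
    have hy := h.pos_right
    refine Ch.step y ih ?_ ?_ hy
    · rw [sub_self, norm_zero]; positivity
    · rw [sub_self, norm_zero]; positivity

/-- a Lipschitz path on which `δ ≥ d` -/
theorem Ch.path {γ : ℝ → E} {ℓ d : ℝ} {N : ℕ} (hN : 0 < N) (hκ : 0 < κ) (hd : 0 < d)
    (hlip : ∀ s ∈ Icc (0:ℝ) 1, ∀ t ∈ Icc (0:ℝ) 1, ‖γ s - γ t‖ ≤ ℓ * |s - t|)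
    (hδ : ∀ t ∈ Icc (0:ℝ) 1, d ≤ δ (γ t)) (hl : ℓ < N * (κ * d)) : Ch δ κ N (γ 0) (γ 1) := by
  have key : ∀ i ≤ N, Ch δ κ i (γ 0) (γ ((i:ℝ) / N)) := by
    intro i hi
    induction i with
    | zero =>
      simp only [Nat.cast_zero, zero_div]
      exact Ch.refl _ (lt_of_lt_of_le hd (hδ 0 ⟨le_refl _, zero_le_one⟩))
    | succ i ih =>
      have hNR : (0:ℝ) < N := by exact_mod_cast hN
      have hi' : (i:ℝ) + 1 ≤ N := by exact_mod_cast hi
      have m1 : (i:ℝ) / N ∈ Icc (0:ℝ) 1 := by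
        constructor
        · positivity
        · rw [div_le_one hNR]; linarith
      have m2 : ((i + 1 : ℕ) : ℝ) / N ∈ Icc (0:ℝ) 1 := by
        push_cast
        constructor
        · positivity
        · rw [div_le_one hNR]; linarith
      have e1 : ‖γ (((i + 1 : ℕ) : ℝ) / N) - γ ((i:ℝ) / N)‖ < κ * d := by
        refine lt_of_le_of_lt (hlip _ m2 _ m1) ?_
        have : ((i + 1 : ℕ) : ℝ) / N - (i:ℝ) / N = 1 / N := by push_cast; ring
        rw [this, abs_of_pos (by positivity), mul_one_div, div_lt_iff₀ hNR]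
        linarith
      refine Ch.step _ (ih (by omega)) ?_ ?_ ?_
      · exact e1.trans_le (mul_le_mul_of_nonneg_left (hδ _ m1) hκ.le)
      · exact e1.trans_le (mul_le_mul_of_nonneg_left (hδ _ m2) hκ.le)
      · exact lt_of_lt_of_le hd (hδ _ m2)
  have := key N le_rfl
  rwa [div_self (by exact_mod_cast hN.ne' : (N:ℝ) ≠ 0)] at this

/-- going up with exponential growth -/
theorem Ch.up {γ : ℝ → E} {C T : ℝ} (hC : 0 < C) (hκ : 0 < κ) (hT : 0 ≤ T) (h0 : 0 < δ (γ 0))
    (hlip : ∀ s ∈ Icc (0:ℝ) T, ∀ t ∈ Icc (0:ℝ) T, ‖γ s - γ t‖ ≤ C * |s - t|)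
    (hδ : ∀ t ∈ Icc (0:ℝ) T, δ (γ t) = δ (γ 0) + t) {m : ℕ}
    (hm : T ≤ δ (γ 0) * ((1 + κ / (2 * C)) ^ m - 1)) : Ch δ κ m (γ 0) (γ T) := by
  set lam : ℝ := 1 + κ / (2 * C) with hlam
  have hlam1 : 1 < lam := by
    have : 0 < κ / (2 * C) := by positivity
    linarith
  set d0 := δ (γ 0) with hd0
  set τ : ℕ → ℝ := fun i => min (d0 * (lam ^ i - 1)) T with hτ
  have hτ0 : ∀ i, 0 ≤ τ i := by
    intro i
    refine le_min (mul_nonneg h0.le ?_) hT
    have := one_le_pow₀ hlam1.le (n := i)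
    linarith
  have hτT : ∀ i, τ i ≤ T := fun i => min_le_right _ _
  have hmono : ∀ i, τ i ≤ τ (i+1) := by
    intro i
    refine min_le_min_right _ (mul_le_mul_of_nonneg_left ?_ h0.le)
    have : lam ^ i ≤ lam ^ (i+1) := pow_le_pow_right₀ hlam1.le (by omega)
    linarith
  have hstep : ∀ i, τ (i+1) - τ i ≤ (d0 + τ i) * (lam - 1) := by
    intro i
    rcases le_total (d0 * (lam ^ i - 1)) T with h | h
    · have e1 : τ i = d0 * (lam ^ i - 1) := min_eq_left h
      have e2 : τ (i+1) ≤ d0 * (lam ^ (i+1) - 1) := min_le_left _ _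
      rw [e1]
      have : d0 * (lam ^ (i+1) - 1) - d0 * (lam ^ i - 1) = (d0 + d0 * (lam ^ i - 1)) * (lam - 1) := by
        rw [pow_succ]; ring
      linarith
    · have e1 : τ i = T := min_eq_right h
      have := hτT (i+1)
      rw [e1]
      have h3 : 0 ≤ (d0 + T) * (lam - 1) := mul_nonneg (by linarith) (by linarith)
      linarith
  have key : ∀ i, Ch δ κ i (γ 0) (γ (τ i)) := by
    intro i
    induction i with
    | zero =>
      have : τ 0 = 0 := by
        simp only [hτ, pow_zero, sub_self, mul_zero]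
        exact min_eq_left hT
      rw [this]
      exact Ch.refl _ h0
    | succ i ih =>
      have m1 : τ i ∈ Icc 0 T := ⟨hτ0 i, hτT i⟩
      have m2 : τ (i+1) ∈ Icc 0 T := ⟨hτ0 _, hτT _⟩
      have hpos : 0 < d0 + τ i := by linarith [hτ0 i]
      have e1 : ‖γ (τ (i+1)) - γ (τ i)‖ < κ * (d0 + τ i) := by
        refine lt_of_le_of_lt (hlip _ m2 _ m1) ?_
        rw [abs_of_nonneg (by linarith [hmono i])]
        calc C * (τ (i+1) - τ i) ≤ C * ((d0 + τ i) * (lam - 1)) :=
              mul_le_mul_of_nonneg_left (hstep i) hC.le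
          _ = (κ / 2) * (d0 + τ i) := by
              rw [hlam]; field_simp; ring
          _ < κ * (d0 + τ i) := by
              apply mul_lt_mul_of_pos_right _ hpos
              linarith
      refine Ch.step _ ih ?_ ?_ ?_
      · rw [hδ _ m1]; exact e1
      · rw [hδ _ m2]
        refine e1.trans_le (mul_le_mul_of_nonneg_left ?_ hκ.le)
        linarith [hmono i]
      · rw [hδ _ m2]; linarith [hτ0 (i+1)]
  have hmT : τ m = T := min_eq_right hm
  have := key m
  rwa [hmT] at this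

end chain

end Q77.BL
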