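import Pool.Agent.Q77.BL.PolyDef
import Pool.Agent.Q77.BL.Main
import Pool.Agent.Q77.BL.NoBi

set_option autoImplicit false

open Set Metric MvPolynomial

namespace Q77.BL

section perp

theorem exists_perp {V : Type*} [NormedAddCommGroup V] [InnerProductSpace ℝ V] [FiniteDimensional ℝ V]
    (h : 2 ≤ Module.finrank ℝ V) (y : V) : ∃ e : V, ‖e‖ = 1 ∧ inner ℝ y e = 0 := by
  have h1 : Module.finrank ℝ (Submodule.span ℝ {y}) ≤ 1 := by
    refine (finrank_span_le_card ({y} : Set V)).trans ?_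
    simp
  have h2 := Submodule.finrank_add_finrank_orthogonal (Submodule.span ℝ {y})
  have h3 : (Submodule.span ℝ {y})ᗮ ≠ ⊥ := by
    intro hbot
    rw [hbot, finrank_bot] at h2
    omega
  obtain ⟨v, hv, hv0⟩ := Submodule.exists_mem_ne_zero_of_ne_bot h3
  have hn : ‖v‖ ≠ 0 := norm_ne_zero_iff.2 hv0
  refine ⟨‖v‖⁻¹ • v, ?_, ?_⟩
  · rw [norm_smul, norm_inv, norm_norm, inv_mul_cancel₀ hn]
  · rw [inner_smul_right]
    have := (Submodule.mem_orthogonal _ _).1 hv y (Submodule.mem_span_singleton_self y)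
    rw [this, mul_zero]

end perp

/-- a `Split` from linear maps -/
noncomputable def Split.ofLin {E Y1 Y2 : Type*} [NormedAddCommGroup E] [NormedSpace ℝ E]
    [NormedAddCommGroup Y1] [InnerProductSpace ℝ Y1]
    [NormedAddCommGroup Y2] [InnerProductSpace ℝ Y2]
    (L1 : E →L[ℝ] Y1) (L2 : E →L[ℝ] Y2) (s1 : Y1 →L[ℝ] E) (s2 : Y2 →L[ℝ] E)
    (h11 : ∀ e, L1 (s1 e) = e) (h12 : ∀ e, L2 (s1 e) = 0) (h21 : ∀ e, L1 (s2 e) = 0)
    (h22 : ∀ e, L2 (s2 e) = e) (perp : ∀ y : Y1, ∃ e : Y1, ‖e‖ = 1 ∧ inner ℝ y e = 0)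
    (unit2 : ∃ e : Y2, ‖e‖ = 1) : Split E Y1 Y2 where
  L1 := L1
  L2 := L2
  s1 := s1
  s2 := s2
  Lam := ‖L1‖ + ‖L2‖ + 1
  C := ‖s1‖ + ‖s2‖ + 1
  hLam := by positivity
  hC := by positivity
  h11 := fun x e => by rw [map_add, h11]
  h12 := fun x e => by rw [map_add, h12, add_zero]
  h21 := fun x e => by rw [map_add, h21, add_zero]
  h22 := fun x e => by rw [map_add, h22]
  lip := fun x x' => by
    have e1 : |‖L1 x‖ - ‖L1 x'‖| ≤ ‖L1‖ * ‖x - x'‖ := by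
      refine (abs_norm_sub_norm_le _ _).trans ?_
      rw [← map_sub]
      exact L1.le_opNorm _
    have e2 : |‖L2 x‖ - ‖L2 x'‖| ≤ ‖L2‖ * ‖x - x'‖ := by
      refine (abs_norm_sub_norm_le _ _).trans ?_
      rw [← map_sub]
      exact L2.le_opNorm _
    have e3 : (‖L1 x‖ - ‖L2 x‖) - (‖L1 x'‖ - ‖L2 x'‖) = (‖L1 x‖ - ‖L1 x'‖) - (‖L2 x‖ - ‖L2 x'‖) := by ring
    rw [e3]
    refine (abs_sub _ _).trans ?_
    have := norm_nonneg (x - x')
    nlinarith
  lip1 := fun e e' => by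
    rw [← map_sub]
    refine (s1.le_opNorm _).trans ?_
    have := norm_nonneg s2
    gcongr
    linarith
  lip2 := fun e e' => by
    rw [← map_sub]
    refine (s2.le_opNorm _).trans ?_
    have := norm_nonneg s1
    gcongr
    linarith
  z1 := map_zero _
  z2 := map_zero _
  perp := perp
  unit2 := unit2

abbrev Y2 : Type := EuclideanSpace ℝ (Fin 2)
abbrev Y3 : Type := EuclideanSpace ℝ (Fin 3)

noncomputable def LU : E5 →L[ℝ] Y2 := LinearMap.toContinuousLinearMap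
  { toFun := fun x => !₂[x 0, x 1]
    map_add' := fun x y => by ext i; fin_cases i <;> simp
    map_smul' := fun c x => by ext i; fin_cases i <;> simp }

noncomputable def sU : Y2 →L[ℝ] E5 := LinearMap.toContinuousLinearMap
  { toFun := fun x => !₂[x 0, x 1, 0, 0, 0]
    map_add' := fun x y => by ext i; fin_cases i <;> simp
    map_smul' := fun c x => by ext i; fin_cases i <;> simp }

noncomputable def LV0 : E5 →L[ℝ] Y2 := LinearMap.toContinuousLinearMap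
  { toFun := fun x => !₂[x 2, x 3]
    map_add' := fun x y => by ext i; fin_cases i <;> simp
    map_smul' := fun c x => by ext i; fin_cases i <;> simp }

noncomputable def sV0 : Y2 →L[ℝ] E5 := LinearMap.toContinuousLinearMap
  { toFun := fun x => !₂[0, 0, x 0, x 1, 0]
    map_add' := fun x y => by ext i; fin_cases i <;> simp
    map_smul' := fun c x => by ext i; fin_cases i <;> simp }

noncomputable def LV (b c : ℝ) : E5 →L[ℝ] Y3 := LinearMap.toContinuousLinearMap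
  { toFun := fun x => !₂[b * x 2, b * x 3, c * x 4]
    map_add' := fun x y => by ext i; fin_cases i <;> simp <;> ring
    map_smul' := fun k x => by ext i; fin_cases i <;> simp <;> ring }

noncomputable def sV (b c : ℝ) : Y3 →L[ℝ] E5 := LinearMap.toContinuousLinearMap
  { toFun := fun x => !₂[0, 0, b⁻¹ * x 0, b⁻¹ * x 1, c⁻¹ * x 2]
    map_add' := fun x y => by ext i; fin_cases i <;> simp <;> ring
    map_smul' := fun k x => by ext i; fin_cases i <;> simp <;> ring }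

theorem LU_apply (x : E5) : LU x = !₂[x 0, x 1] := rfl
theorem sU_apply (x : Y2) : sU x = !₂[x 0, x 1, 0, 0, 0] := rfl
theorem LV0_apply (x : E5) : LV0 x = !₂[x 2, x 3] := rfl
theorem sV0_apply (x : Y2) : sV0 x = !₂[0, 0, x 0, x 1, 0] := rfl
theorem LV_apply (b c : ℝ) (x : E5) : LV b c x = !₂[b * x 2, b * x 3, c * x 4] := rfl
theorem sV_apply (b c : ℝ) (x : Y3) : sV b c x = !₂[0, 0, b⁻¹ * x 0, b⁻¹ * x 1, c⁻¹ * x 2] := rfl

theorem perp2 (y : Y2) : ∃ e : Y2, ‖e‖ = 1 ∧ inner ℝ y e = 0 := exists_perp (by simp) y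
theorem perp3 (y : Y3) : ∃ e : Y3, ‖e‖ = 1 ∧ inner ℝ y e = 0 := exists_perp (by simp) y

theorem lu_su (e : Y2) : LU (sU e) = e := by
  rw [sU_apply, LU_apply]; ext i; fin_cases i <;> simp
theorem lv0_su (e : Y2) : LV0 (sU e) = 0 := by
  rw [sU_apply, LV0_apply]; ext i; fin_cases i <;> simp
theorem lu_sv0 (e : Y2) : LU (sV0 e) = 0 := by
  rw [sV0_apply, LU_apply]; ext i; fin_cases i <;> simp
theorem lv0_sv0 (e : Y2) : LV0 (sV0 e) = e := by
  rw [sV0_apply, LV0_apply]; ext i; fin_cases i <;> simp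
theorem lv_su (b c : ℝ) (e : Y2) : LV b c (sU e) = 0 := by
  rw [sU_apply, LV_apply]; ext i; fin_cases i <;> simp
theorem lu_sv (b c : ℝ) (e : Y3) : LU (sV b c e) = 0 := by
  rw [sV_apply, LU_apply]; ext i; fin_cases i <;> simp
theorem lv_sv {b c : ℝ} (hb : b ≠ 0) (hc : c ≠ 0) (e : Y3) : LV b c (sV b c e) = e := by
  rw [sV_apply, LV_apply]; ext i; fin_cases i <;> simp [hb, hc]

/-- the path of polynomials -/
noncomputable def pq (t : ℝ) : MvPolynomial (Fin 5) ℝ :=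
  (X 0 ^ 2 + X 1 ^ 2 - (X 2 ^ 2 + X 3 ^ 2)) + C t * (C (1/2) * (X 2 ^ 2 + X 3 ^ 2) - X 4 ^ 2)

theorem pq_hom (t : ℝ) : (pq t).IsHomogeneous 2 := by
  have hX : ∀ i : Fin 5, (X i ^ 2 : MvPolynomial (Fin 5) ℝ).IsHomogeneous 2 := fun i =>
    isHomogeneous_X_pow i 2
  unfold pq
  refine IsHomogeneous.add (IsHomogeneous.sub ((hX 0).add (hX 1)) ((hX 2).add (hX 3))) ?_
  refine IsHomogeneous.C_mul ?_ t
  exact IsHomogeneous.sub (IsHomogeneous.C_mul ((hX 2).add (hX 3)) _) (hX 4)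

theorem pderiv_two (i : Fin 5) : pderiv i (2 : MvPolynomial (Fin 5) ℝ) = 0 := by
  have : (2 : MvPolynomial (Fin 5) ℝ) = C 2 := (map_ofNat C 2).symm
  rw [this, pderiv_C]

theorem pderiv_sq (i j : Fin 5) : pderiv i (pderiv i (X j ^ 2 : MvPolynomial (Fin 5) ℝ)) =
    if i = j then 2 else 0 := by
  rw [pderiv_pow, pderiv_X]
  by_cases h : i = j
  · subst h
    simp [pderiv_two]
  · simp [h, Ne.symm h]

theorem pq_harm (t : ℝ) : ∑ i, pderiv i (pderiv i (pq t)) = 0 := by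
  unfold pq
  simp only [map_add, map_sub, pderiv_C_mul, pderiv_sq, Fin.sum_univ_five]
  simp
  have h2 : (C (2⁻¹ : ℝ) : MvPolynomial (Fin 5) ℝ) * 2 = 1 := by
    have : (2 : MvPolynomial (Fin 5) ℝ) = C 2 := (map_ofNat C 2).symm
    rw [this, ← C_mul]
    norm_num
  linear_combination (2 * C t) * h2

theorem pq_eval (t : ℝ) (x : E5) : eval (fun i => x i) (pq t) =
    x 0 ^ 2 + x 1 ^ 2 - (1 - t / 2) * (x 2 ^ 2 + x 3 ^ 2) - t * x 4 ^ 2 := by
  unfold pq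
  simp only [map_add, map_sub, map_mul, map_pow, eval_X, eval_C]
  ring

/-- the split for `t > 0` -/
noncomputable def spU (b c : ℝ) (hb : b ≠ 0) (hc : c ≠ 0) : Split E5 Y2 Y3 :=
  Split.ofLin LU (LV b c) sU (sV b c) lu_su (lv_su b c) (lu_sv b c) (lv_sv hb hc) perp2
    ((perp3 0).imp fun _ h => h.1)

noncomputable def spV (b c : ℝ) (hb : b ≠ 0) (hc : c ≠ 0) : Split E5 Y3 Y2 :=
  Split.ofLin (LV b c) LU (sV b c) sU (lv_sv hb hc) (lu_sv b c) (lv_su b c) lu_su perp3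
    ((perp2 0).imp fun _ h => h.1)

noncomputable def spU0 : Split E5 Y2 Y2 :=
  Split.ofLin LU LV0 sU sV0 lu_su lv0_su lu_sv0 lv0_sv0 perp2 ((perp2 0).imp fun _ h => h.1)

noncomputable def spV0 : Split E5 Y2 Y2 :=
  Split.ofLin LV0 LU sV0 sU lv0_sv0 lu_sv0 lv0_su lu_su perp2 ((perp2 0).imp fun _ h => h.1)

theorem norm_LU (x : E5) : ‖LU x‖ ^ 2 = x 0 ^ 2 + x 1 ^ 2 := by
  rw [LU_apply, EuclideanSpace.norm_sq_eq]
  simp

theorem norm_LV0 (x : E5) : ‖LV0 x‖ ^ 2 = x 2 ^ 2 + x 3 ^ 2 := by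
  rw [LV0_apply, EuclideanSpace.norm_sq_eq]
  simp

theorem norm_LV (b c : ℝ) (x : E5) : ‖LV b c x‖ ^ 2 = b ^ 2 * (x 2 ^ 2 + x 3 ^ 2) + c ^ 2 * x 4 ^ 2 := by
  rw [LV_apply, EuclideanSpace.norm_sq_eq]
  simp [Fin.sum_univ_three]
  ring

theorem lt_iff_sq {a b : ℝ} (ha : 0 ≤ a) (hb : 0 ≤ b) : 0 < a - b ↔ b ^ 2 < a ^ 2 := by
  rw [sub_pos]
  exact (pow_lt_pow_iff_left₀ hb ha two_ne_zero).symm

theorem pos_eq {t : ℝ} (ht0 : 0 < t) (ht1 : t ≤ 1) :
    Pos (pq t) = (spU (Real.sqrt (1 - t / 2)) (Real.sqrt t)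
      (Real.sqrt_ne_zero'.2 (by linarith)) (Real.sqrt_ne_zero'.2 ht0)).Om := by
  ext x
  change _ ↔ 0 < ‖LU x‖ - ‖LV _ _ x‖
  rw [lt_iff_sq (norm_nonneg _) (norm_nonneg _), norm_LU, norm_LV, Real.sq_sqrt (by linarith),
    Real.sq_sqrt ht0.le, Pos, mem_ofPred_eq, pq_eval]
  constructor <;> intro h <;> linarith

theorem neg_eq {t : ℝ} (ht0 : 0 < t) (ht1 : t ≤ 1) :
    Neg (pq t) = (spV (Real.sqrt (1 - t / 2)) (Real.sqrt t)
      (Real.sqrt_ne_zero'.2 (by linarith)) (Real.sqrt_ne_zero'.2 ht0)).Om := by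
  ext x
  change _ ↔ 0 < ‖LV _ _ x‖ - ‖LU x‖
  rw [lt_iff_sq (norm_nonneg _) (norm_nonneg _), norm_LU, norm_LV, Real.sq_sqrt (by linarith),
    Real.sq_sqrt ht0.le, Neg, mem_ofPred_eq, pq_eval]
  constructor <;> intro h <;> linarith

theorem pos_eq0 : Pos (pq 0) = spU0.Om := by
  ext x
  change _ ↔ 0 < ‖LU x‖ - ‖LV0 x‖
  rw [lt_iff_sq (norm_nonneg _) (norm_nonneg _), norm_LU, norm_LV0, Pos, mem_ofPred_eq, pq_eval]
  constructor <;> intro h <;> linarith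

theorem neg_eq0 : Neg (pq 0) = spV0.Om := by
  ext x
  change _ ↔ 0 < ‖LV0 x‖ - ‖LU x‖
  rw [lt_iff_sq (norm_nonneg _) (norm_nonneg _), norm_LU, norm_LV0, Neg, mem_ofPred_eq, pq_eval]
  constructor <;> intro h <;> linarith

theorem pq_mem {t : ℝ} (ht0 : 0 ≤ t) (ht1 : t ≤ 1) : pq t ∈ HH 5 2 := by
  refine ⟨⟨pq_hom t, pq_harm t⟩, ?_⟩
  rcases eq_or_lt_of_le ht0 with h | h
  · subst h
    rw [pos_eq0, neg_eq0]
    exact ⟨spU0.isNTA, spV0.isNTA⟩
  · rw [pos_eq h ht1, neg_eq h ht1]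
    exact ⟨Split.isNTA _, Split.isNTA _⟩

theorem pq_connected : pq 1 ∈ @connectedComponentIn _ (coeffTopology 5) (HH 5 2) (pq 0) := by
  let _ := coeffTopology 5
  have hc : Continuous pq := by
    refine continuous_induced_rng.2 (continuous_pi fun m => ?_)
    have : (fun t : ℝ => (pq t).coeff m) = fun t : ℝ =>
        (X 0 ^ 2 + X 1 ^ 2 - (X 2 ^ 2 + X 3 ^ 2) : MvPolynomial (Fin 5) ℝ).coeff m +
        t * (C (1/2) * (X 2 ^ 2 + X 3 ^ 2) - X 4 ^ 2 : MvPolynomial (Fin 5) ℝ).coeff m := by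
      funext t
      unfold pq
      rw [coeff_add, coeff_C_mul]
    change Continuous (fun t : ℝ => (pq t).coeff m)
    rw [this]
    fun_prop
  have hpre : IsPreconnected (pq '' Icc 0 1) := isPreconnected_Icc.image _ hc.continuousOn
  have hsub : pq '' Icc 0 1 ⊆ HH 5 2 := by
    rintro _ ⟨t, ht, rfl⟩
    exact pq_mem ht.1 ht.2
  exact hpre.subset_connectedComponentIn ⟨0, ⟨le_refl _, zero_le_one⟩, rfl⟩ hsub
    ⟨1, ⟨zero_le_one, le_refl _⟩, rfl⟩

theorem not_equiv : ¬ BiLipEquiv (Zer (pq 0)) (Zer (pq 1)) := by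
  have h0 : Zer (pq 0) = Sg0 := by
    ext x
    rw [Zer, mem_ofPred_eq, pq_eval, Sg0, mem_ofPred_eq]
    constructor <;> intro h <;> linarith
  have h1 : Zer (pq 1) = Sg1 := by
    ext x
    rw [Zer, mem_ofPred_eq, pq_eval, Sg1, mem_ofPred_eq]
    constructor <;> intro h <;> linarith
  rw [h0, h1]
  exact noBi

end Q77.BL
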