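import Pool.Agent.Q77.BL.Def

set_option autoImplicit false

open Set Metric MvPolynomial

namespace Q77.BL

/-- The topology of coefficientwise convergence on real polynomials in `n` variables. On the
finite-dimensional space of homogeneous polynomials of a given degree it is the usual topology. -/
def coeffTopology (n : ℕ) : TopologicalSpace (MvPolynomial (Fin n) ℝ) :=
  TopologicalSpace.induced (fun (p : MvPolynomial (Fin n) ℝ) (m : Fin n →₀ ℕ) => p.coeff m) inferInstance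

/-- `V_{n,d}`: the homogeneous harmonic polynomials of degree `d` on `ℝ^n` -/
def Harm (n d : ℕ) : Set (MvPolynomial (Fin n) ℝ) :=
  {p | p.IsHomogeneous d ∧ ∑ i, pderiv i (pderiv i p) = 0}

/-- `Ω_p^+` -/
def Pos {n : ℕ} (p : MvPolynomial (Fin n) ℝ) : Set (EuclideanSpace ℝ (Fin n)) :=
  {x | 0 < eval (fun i => x i) p}

/-- `Ω_p^-` -/
def Neg {n : ℕ} (p : MvPolynomial (Fin n) ℝ) : Set (EuclideanSpace ℝ (Fin n)) :=
  {x | eval (fun i => x i) p < 0}

/-- `Σ_p` -/
def Zer {n : ℕ} (p : MvPolynomial (Fin n) ℝ) : Set (EuclideanSpace ℝ (Fin n)) :=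
  {x | eval (fun i => x i) p = 0}

/-- `ℋ_{n,d}`: both nodal domains `Ω_p^+`, `Ω_p^-` are NTA domains -/
def HH (n d : ℕ) : Set (MvPolynomial (Fin n) ℝ) :=
  {p | p ∈ Harm n d ∧ IsNTA (Pos p) ∧ IsNTA (Neg p)}

/-- bi-Lipschitz equivalence of two sets -/
def BiLipEquiv {E : Type*} [PseudoMetricSpace E] (A B : Set E) : Prop :=
  ∃ (f : E → E) (L : ℝ), 1 ≤ L ∧ BijOn f A B ∧
    ∀ x ∈ A, ∀ y ∈ A, L⁻¹ * dist x y ≤ dist (f x) (f y) ∧ dist (f x) (f y) ≤ L * dist x y

end Q77.BL
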