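import Pool.Agent.Q77.BL.Wind

set_option autoImplicit false

open Set Metric Complex

namespace Q77.BL

abbrev E5 : Type := EuclideanSpace ℝ (Fin 5)
abbrev F4 : Type := ℝ × ℝ × ℝ × ℝ

/-- the cone over the Clifford torus times a line -/
def Sg0 : Set E5 := {x | x 0 ^ 2 + x 1 ^ 2 = x 2 ^ 2 + x 3 ^ 2}
/-- a cone over `S¹ × S²` -/
def Sg1 : Set E5 := {x | x 0 ^ 2 + x 1 ^ 2 = (x 2 ^ 2 + x 3 ^ 2) / 2 + x 4 ^ 2}

def uc (x : E5) : ℂ := ⟨x 0, x 1⟩

/-- the points of the axis -/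
noncomputable def ax (w : ℝ) : E5 := !₂[0, 0, 0, 0, w]

/-- the loops around the axis -/
noncomputable def lp (s w : ℝ) (t : ℝ) : E5 := !₂[s * Real.cos t, s * Real.sin t, s, 0, w]

theorem ax_mem (w : ℝ) : ax w ∈ Sg0 := by simp [Sg0, ax]

theorem lp_mem (s w t : ℝ) : lp s w t ∈ Sg0 := by
  simp only [Sg0, lp, mem_ofPred_eq]
  have := Real.cos_sq_add_sin_sq t
  simp
  nlinarith

theorem contDiff_ax : ContDiff ℝ 1 ax := by
  rw [contDiff_euclidean]
  intro i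
  fin_cases i <;> simp [ax] <;> fun_prop

theorem contDiff_lp (s w : ℝ) : ContDiff ℝ 1 (lp s w) := by
  rw [contDiff_euclidean]
  intro i
  fin_cases i <;> simp [lp] <;> fun_prop

theorem uc_lp (s w t : ℝ) : uc (lp s w t) = s * Complex.exp (t * I) := by
  apply Complex.ext
  · simp [uc, lp, Complex.exp_re, Complex.exp_im]
  · simp [uc, lp, Complex.exp_re, Complex.exp_im]

theorem uc_cont : Continuous uc := by
  have h : uc = fun x : E5 => ((x 0 : ℝ) : ℂ) + ((x 1 : ℝ) : ℂ) * I := by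
    funext x
    apply Complex.ext <;> simp [uc]
  rw [h]
  fun_prop

theorem normSq_uc (x : E5) : Complex.normSq (uc x) = x 0 ^ 2 + x 1 ^ 2 := by
  simp [uc, Complex.normSq_apply]; ring

/-- the projection in the direction `ν` -/
noncomputable def pr (ν : ℂ) (x : E5) : F4 := ((uc x * (starRingEnd ℂ) ν).im, x 2, x 3, x 4)

noncomputable def al (ν : ℂ) (x : E5) : ℝ := (uc x * (starRingEnd ℂ) ν).re

noncomputable def rad (y : F4) : ℝ := (y.2.1 ^ 2 + y.2.2.1 ^ 2) / 2 + y.2.2.2 ^ 2 - y.1 ^ 2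

noncomputable def Ph (ν : ℂ) (y : F4) : E5 :=
  !₂[((⟨Real.sqrt (rad y), y.1⟩ : ℂ) * ν).re, ((⟨Real.sqrt (rad y), y.1⟩ : ℂ) * ν).im,
    y.2.1, y.2.2.1, y.2.2.2]

theorem pr_contDiff (ν : ℂ) : ContDiff ℝ 1 (pr ν) := by
  unfold pr uc
  simp only [Complex.mul_im, Complex.conj_re, Complex.conj_im]
  fun_prop

theorem al_cont (ν : ℂ) : Continuous (al ν) := by
  unfold al uc
  simp only [Complex.mul_re, Complex.conj_re, Complex.conj_im]
  fun_prop

theorem rad_cont : Continuous rad := by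
  unfold rad
  fun_prop

theorem Ph_cont (ν : ℂ) : Continuous (Ph ν) := by
  have hr := rad_cont
  have h : ∀ i : Fin 5, Continuous fun y => Ph ν y i := by
    intro i
    fin_cases i <;> simp [Ph] <;> fun_prop
  exact (PiLp.continuous_toLp 2 (fun _ : Fin 5 => ℝ)).comp (continuous_pi h)

theorem uc_Ph (ν : ℂ) (y : F4) : uc (Ph ν y) = (⟨Real.sqrt (rad y), y.1⟩ : ℂ) * ν := by
  apply Complex.ext <;> simp [uc, Ph]

theorem Ph_mem {ν : ℂ} (hν : ‖ν‖ = 1) {y : F4} (hy : 0 ≤ rad y) : Ph ν y ∈ Sg1 := by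
  have h1 := normSq_uc (Ph ν y)
  rw [uc_Ph, map_mul, Complex.normSq_eq_norm_sq ν, hν, one_pow, mul_one, Complex.normSq_apply] at h1
  simp only at h1
  rw [Real.mul_self_sqrt hy] at h1
  rw [Sg1, mem_ofPred_eq, ← h1]
  simp only [Ph, rad]
  simp
  ring

theorem pr_Ph {ν : ℂ} (hν : ‖ν‖ = 1) (y : F4) : pr ν (Ph ν y) = y := by
  have h1 : ν * (starRingEnd ℂ) ν = 1 := by
    rw [Complex.mul_conj, Complex.normSq_eq_norm_sq, hν]; norm_num
  unfold pr
  rw [uc_Ph, mul_assoc, h1, mul_one]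
  simp [Ph]

theorem Ph_pr {ν : ℂ} (hν : ‖ν‖ = 1) {x : E5} (hx : x ∈ Sg1) (ha : 0 ≤ al ν x) : Ph ν (pr ν x) = x := by
  have h1 : (starRingEnd ℂ) ν * ν = 1 := by
    rw [mul_comm, Complex.mul_conj, Complex.normSq_eq_norm_sq, hν]; norm_num
  have hx' : x 0 ^ 2 + x 1 ^ 2 = (x 2 ^ 2 + x 3 ^ 2) / 2 + x 4 ^ 2 := hx
  have h2 : Complex.normSq (uc x * (starRingEnd ℂ) ν) = x 0 ^ 2 + x 1 ^ 2 := by
    rw [map_mul, Complex.normSq_conj, Complex.normSq_eq_norm_sq ν, hν, one_pow, mul_one, normSq_uc]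
  rw [Complex.normSq_apply] at h2
  have h3 : rad (pr ν x) = al ν x ^ 2 := by
    unfold rad pr al
    simp only
    nlinarith
  have h4 : Real.sqrt (rad (pr ν x)) = al ν x := by rw [h3, Real.sqrt_sq ha]
  have h5 : (⟨Real.sqrt (rad (pr ν x)), (pr ν x).1⟩ : ℂ) = uc x * (starRingEnd ℂ) ν := by
    rw [h4]
    apply Complex.ext
    · rfl
    · rfl
  have h6 : (⟨Real.sqrt (rad (pr ν x)), (pr ν x).1⟩ : ℂ) * ν = uc x := by
    rw [h5, mul_assoc, h1, mul_one]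
  ext i
  unfold Ph
  rw [h6]
  fin_cases i <;> simp [uc, pr]

theorem dist_lp_ax {s : ℝ} (hs : 0 ≤ s) (w t : ℝ) : dist (lp s w t) (ax w) ≤ 2 * s := by
  rw [EuclideanSpace.dist_eq]
  apply Real.sqrt_le_iff.2
  refine ⟨by positivity, ?_⟩
  simp only [Fin.sum_univ_five, lp, ax, Real.dist_eq, sq_abs]
  have := Real.cos_sq_add_sin_sq t
  simp
  nlinarith

end Q77.BL
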