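import Mathlib

set_option autoImplicit false

open Set Metric Complex

namespace Q77.BL

/-- The loop `s e^{it}` is not null-homotopic in `ℂ \ {0}`. -/
theorem wind {K : ℝ × ℝ → ℂ} {s : ℝ} (hs : 0 < s)
    (hK : ContinuousOn K (Icc 0 1 ×ˢ Icc 0 (2 * Real.pi)))
    (hne : ∀ z ∈ (Icc 0 1 ×ˢ Icc 0 (2 * Real.pi) : Set (ℝ × ℝ)), K z ≠ 0)
    (h0 : ∀ t ∈ Icc 0 (2 * Real.pi), K (0, t) = s * Complex.exp (t * I))
    (h1 : ∀ t ∈ Icc 0 (2 * Real.pi), K (1, t) = K (1, 0))
    (hper : ∀ σ ∈ Icc (0:ℝ) 1, K (σ, 0) = K (σ, 2 * Real.pi)) : False := by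
  have hpi := Real.pi_pos
  set R : Set (ℝ × ℝ) := Icc 0 1 ×ˢ Icc 0 (2 * Real.pi) with hR
  have hRc : IsCompact R := isCompact_Icc.prod isCompact_Icc
  -- lower bound
  have hRne : R.Nonempty := ⟨(0, 0), ⟨⟨le_refl _, zero_le_one⟩, ⟨le_refl _, by positivity⟩⟩⟩
  obtain ⟨z0, hz0, hmin⟩ := hRc.exists_isMinOn hRne (hK.norm)
  set m : ℝ := ‖K z0‖ with hm
  have hmpos : 0 < m := norm_pos_iff.2 (hne z0 hz0)
  have hmle : ∀ z ∈ R, m ≤ ‖K z‖ := fun z hz => hmin hz
  -- uniform continuity
  have huc := hRc.uniformContinuousOn_of_continuous hK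
  rw [Metric.uniformContinuousOn_iff] at huc
  obtain ⟨δ, hδ, hδK⟩ := huc m hmpos
  obtain ⟨N0, hN0⟩ := exists_nat_gt (2 * Real.pi / δ)
  set N : ℕ := N0 + 3 with hN
  have hNpos : (0:ℝ) < N := by positivity
  have hN3 : (3:ℝ) ≤ N := by
    rw [hN]; push_cast
    have : (0:ℝ) ≤ N0 := Nat.cast_nonneg _
    linarith
  have hstep : 2 * Real.pi / N < δ := by
    rw [div_lt_iff₀ hNpos]
    rw [div_lt_iff₀ hδ] at hN0
    have : (N0:ℝ) ≤ N := by exact_mod_cast (show N0 ≤ N by omega)
    nlinarith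
  set t : ℕ → ℝ := fun j => j * (2 * Real.pi / N) with ht
  have htm : ∀ j ≤ N, t j ∈ Icc 0 (2 * Real.pi) := by
    intro j hj
    have hj' : (j:ℝ) ≤ N := by exact_mod_cast hj
    refine ⟨by positivity, ?_⟩
    have : (j:ℝ) * (2 * Real.pi / N) ≤ N * (2 * Real.pi / N) := by gcongr
    rwa [mul_div_cancel₀ _ hNpos.ne'] at this
  have ht0 : t 0 = 0 := by simp [ht]
  have htN : t N = 2 * Real.pi := by
    simp only [ht]; rw [mul_div_cancel₀ _ hNpos.ne']
  have hmem : ∀ σ ∈ Icc (0:ℝ) 1, ∀ j ≤ N, (σ, t j) ∈ R := fun σ hσ j hj => ⟨hσ, htm j hj⟩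
  set q : ℕ → ℝ → ℂ := fun j σ => K (σ, t (j+1)) / K (σ, t j) with hq
  have hqs : ∀ σ ∈ Icc (0:ℝ) 1, ∀ j < N, q j σ ∈ slitPlane := by
    intro σ hσ j hj
    have m1 := hmem σ hσ j hj.le
    have m2 := hmem σ hσ (j+1) hj
    have hd : dist (K (σ, t (j+1))) (K (σ, t j)) < m := by
      apply hδK _ m2 _ m1
      rw [Prod.dist_eq, max_lt_iff]
      refine ⟨by simpa using hδ, ?_⟩
      rw [Real.dist_eq]
      have : t (j+1) - t j = 2 * Real.pi / N := by simp only [ht]; push_cast; ring
      rw [this, abs_of_pos (by positivity)]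
      exact hstep
    have hKne := hne _ m1
    have hn : ‖q j σ - 1‖ < 1 := by
      have : q j σ - 1 = (K (σ, t (j+1)) - K (σ, t j)) / K (σ, t j) := by
        simp only [hq]; field_simp
      rw [this, norm_div, div_lt_one (norm_pos_iff.2 hKne), ← dist_eq_norm]
      exact lt_of_lt_of_le hd (hmle _ m1)
    rw [mem_slitPlane_iff]
    left
    have h3 : |(q j σ - 1).re| ≤ ‖q j σ - 1‖ := Complex.abs_re_le_norm _
    have h4 : (q j σ - 1).re = (q j σ).re - 1 := by simp
    rw [h4] at h3
    have := (abs_le.1 h3).1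
    linarith
  set W : ℝ → ℂ := fun σ => ∑ j ∈ Finset.range N, Complex.log (q j σ) with hW
  have hWc : ContinuousOn W (Icc 0 1) := by
    apply continuousOn_finsetSum
    intro j hj
    rw [Finset.mem_range] at hj
    apply ContinuousOn.clog
    · apply ContinuousOn.div
      · exact hK.comp (by fun_prop) (fun σ hσ => hmem σ hσ (j+1) hj)
      · exact hK.comp (by fun_prop) (fun σ hσ => hmem σ hσ j hj.le)
      · intro σ hσ
        exact hne _ (hmem σ hσ j hj.le)
    · intro σ hσ
      exact hqs σ hσ j hj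
  have hexp : ∀ σ ∈ Icc (0:ℝ) 1, Complex.exp (W σ) = 1 := by
    intro σ hσ
    have hp : ∀ n ≤ N, ∏ j ∈ Finset.range n, q j σ = K (σ, t n) / K (σ, t 0) := by
      intro n hn
      induction n with
      | zero => rw [Finset.prod_range_zero, div_self (hne _ (hmem σ hσ 0 (by omega)))]
      | succ n ih =>
        rw [Finset.prod_range_succ, ih (by omega)]
        have := hne _ (hmem σ hσ n (by omega))
        have := hne _ (hmem σ hσ 0 (by omega))
        simp only [hq]
        field_simp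
    simp only [hW]
    rw [Complex.exp_sum]
    have : ∏ j ∈ Finset.range N, Complex.exp (Complex.log (q j σ)) = ∏ j ∈ Finset.range N, q j σ := by
      apply Finset.prod_congr rfl
      intro j hj
      exact Complex.exp_log (slitPlane_ne_zero (hqs σ hσ j (Finset.mem_range.1 hj)))
    rw [this, hp N le_rfl, ht0, htN, ← hper σ hσ, div_self]
    have := hne _ (hmem σ hσ 0 (by omega))
    rwa [ht0] at this
  -- the endpoints
  have hW0 : W 0 = 2 * Real.pi * I := by
    have : ∀ j ∈ Finset.range N, Complex.log (q j 0) = ((2 * Real.pi / N : ℝ) : ℂ) * I := by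
      intro j hj
      rw [Finset.mem_range] at hj
      have e : q j 0 = Complex.exp (((2 * Real.pi / N : ℝ) : ℂ) * I) := by
        simp only [hq]
        rw [h0 _ (htm (j+1) hj), h0 _ (htm j hj.le)]
        have hs' : (s : ℂ) ≠ 0 := by exact_mod_cast hs.ne'
        rw [mul_div_mul_left _ _ hs', ← Complex.exp_sub]
        congr 1
        simp only [ht]
        push_cast
        ring
      rw [e, Complex.log_exp]
      · simp only [mul_im, ofReal_re, I_im, mul_one, ofReal_im, I_re, mul_zero, add_zero]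
        have : 0 < 2 * Real.pi / N := by positivity
        linarith
      · simp only [mul_im, ofReal_re, I_im, mul_one, ofReal_im, I_re, mul_zero, add_zero]
        rw [div_le_iff₀ hNpos]
        nlinarith
    simp only [hW]
    rw [Finset.sum_congr rfl this, Finset.sum_const, Finset.card_range, nsmul_eq_mul]
    push_cast
    have hNC : (N : ℂ) ≠ 0 := by exact_mod_cast hNpos.ne'
    field_simp
  have hW1 : W 1 = 0 := by
    have : ∀ j ∈ Finset.range N, Complex.log (q j 1) = 0 := by
      intro j hj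
      rw [Finset.mem_range] at hj
      have e : q j 1 = 1 := by
        simp only [hq]
        rw [h1 _ (htm (j+1) hj), h1 _ (htm j hj.le), div_self]
        exact hne _ ⟨⟨zero_le_one, le_refl _⟩, ⟨le_refl _, by positivity⟩⟩
      rw [e, Complex.log_one]
    simp only [hW]
    rw [Finset.sum_congr rfl this, Finset.sum_const_zero]
  -- the intermediate value
  have hI : ContinuousOn (fun σ => (W σ).im) (Icc 0 1) := Complex.continuous_im.comp_continuousOn hWc
  have hmid : Real.pi ∈ Icc ((W 1).im) ((W 0).im) := by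
    rw [hW0, hW1]
    simp only [Complex.zero_im, mul_im, ofReal_re, I_im, mul_one, ofReal_im, I_re, mul_zero, add_zero]
    constructor
    · exact hpi.le
    · simp
      linarith
  obtain ⟨σ, hσ, hσπ⟩ := intermediate_value_Icc' zero_le_one hI hmid
  have h3 := hexp σ hσ
  have h4 : (Complex.exp (W σ)).re = Real.exp (W σ).re * Real.cos (W σ).im := Complex.exp_re _
  simp only at hσπ
  rw [h3, hσπ, Real.cos_pi, Complex.one_re] at h4
  have := Real.exp_pos (W σ).re
  linarith

end Q77.BL
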